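import Mathlib

/-! `F`-pure regular rings (MP_9ff724_al): definitions. -/

set_option autoImplicit false

namespace Pool.Agent.T9h72.FP

open TensorProduct

universe u v

/-- `F^e_* R`: the additive group of `R`, on which `r : R` acts as multiplication by
`r ^ (p ^ e)`. -/
def Fstar (_p _e : ℕ) (R : Type u) : Type u := R

/-- The element `F^e_* s` of `F^e_* R`. -/
def of (p e : ℕ) {R : Type u} (s : R) : Fstar p e R := s

instance (p e : ℕ) (R : Type u) [CommRing R] : AddCommGroup (Fstar p e R) :=
  inferInstanceAs (AddCommGroup R)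

instance (p e : ℕ) [Fact p.Prime] (R : Type u) [CommRing R] [CharP R p] :
    Module R (Fstar p e R) :=
  Module.compHom R (iterateFrobenius R p e)

theorem smul_of (p e : ℕ) [Fact p.Prime] {R : Type u} [CommRing R] [CharP R p] (r s : R) :
    r • of p e s = of p e (r ^ p ^ e * s) := by
  show iterateFrobenius R p e r * s = r ^ p ^ e * s
  rw [iterateFrobenius_def]

theorem of_add (p e : ℕ) {R : Type u} [CommRing R] (r s : R) :
    of p e (r + s) = of p e r + of p e s := rfl

/-- The `R`-linear map `λ_c^e : R → F^e_* R`, `r ↦ F^e_* (c r ^ (p ^ e))`. -/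
def lam (p e : ℕ) [Fact p.Prime] {R : Type u} [CommRing R] [CharP R p] (c : R) :
    R →ₗ[R] Fstar p e R where
  toFun r := of p e (c * r ^ p ^ e)
  map_add' r s := by
    rw [add_pow_char_pow, mul_add, of_add]
  map_smul' r s := by
    rw [smul_eq_mul, mul_pow, RingHom.id_apply, smul_of]
    congr 1
    ring

/-- A map of `R`-modules `M → N` is pure if `M ⊗ P → N ⊗ P` is injective for every
`R`-module `P`. -/
def IsPure {R : Type u} [CommRing R] {M N : Type u} [AddCommGroup M] [Module R M]
    [AddCommGroup N] [Module R N] (f : M →ₗ[R] N) : Prop :=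
  ∀ (P : Type u) [AddCommGroup P] [Module R P], Function.Injective (f.rTensor P)

/-- `R` is `F`-pure regular: for every `c` outside all minimal primes there is `e ≥ 1` such that
`λ_c^e` is pure. -/
def FPureRegular (p : ℕ) [Fact p.Prime] (R : Type u) [CommRing R] [CharP R p] : Prop :=
  ∀ c : R, (∀ P ∈ minimalPrimes R, c ∉ P) → ∃ e : ℕ, 1 ≤ e ∧ IsPure (lam p e c)

end Pool.Agent.T9h72.FP
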