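import Mathlib
import Pool.Agent.H379R3.Reg

/-! Parameters in regular local rings: an element which is independent of `z` modulo the square of
the maximal ideal is a nonzerodivisor modulo powers of the `z i`. -/

set_option autoImplicit false

namespace Pool.Agent.T9h72.FP

open IsLocalRing

/-- `x, z` are elements of the maximal ideal, independent modulo its square. -/
def Ind {B : Type*} [CommRing B] [IsLocalRing B] {m : ℕ} (x : B) (z : Fin m → B) : Prop :=
  x ∈ maximalIdeal B ∧ (∀ i, z i ∈ maximalIdeal B) ∧ ∀ (b : B) (a : Fin m → B),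
    b * x + ∑ i, a i * z i ∈ maximalIdeal B ^ 2 →
      b ∈ maximalIdeal B ∧ ∀ i, a i ∈ maximalIdeal B

section
variable {B : Type*} [CommRing B] [IsLocalRing B] {m : ℕ}

theorem one_not_mem : (1 : B) ∉ maximalIdeal B := by
  intro h
  exact (maximalIdeal.isMaximal B).ne_top ((Ideal.eq_top_iff_one _).2 h)

theorem Ind.not_mem_sq {x : B} {z : Fin m → B} (h : Ind x z) : x ∉ maximalIdeal B ^ 2 := by
  intro hx
  have := (h.2.2 1 0 (by simpa using hx)).1
  exact one_not_mem this

theorem Ind.tail {x : B} {z : Fin (m + 1) → B} (h : Ind x z) : Ind x (Fin.tail z) := by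
  refine ⟨h.1, fun i => h.2.1 i.succ, fun b a hba => ?_⟩
  have := h.2.2 b (Fin.cons 0 a) (by
    rw [Fin.sum_univ_succ]
    simpa [Fin.tail] using hba)
  exact ⟨this.1, fun i => by simpa using this.2 i.succ⟩

theorem Ind.head {x : B} {z : Fin (m + 1) → B} (h : Ind x z) : Ind (z 0) (Fin.tail z) := by
  refine ⟨h.2.1 0, fun i => h.2.1 i.succ, fun b a hba => ?_⟩
  have := h.2.2 0 (Fin.cons b a) (by
    rw [Fin.sum_univ_succ]
    simpa [Fin.tail] using hba)
  exact ⟨by simpa using this.2 0, fun i => by simpa using this.2 i.succ⟩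

theorem mem_max_mk {t : B} [IsLocalRing (B ⧸ Ideal.span {t})] {a : B} :
    Ideal.Quotient.mk (Ideal.span {t}) a ∈ maximalIdeal (B ⧸ Ideal.span {t}) ↔
      a ∈ maximalIdeal B := by
  have hne : Ideal.span {t} ≠ ⊤ := Ideal.Quotient.nontrivial_iff.1 inferInstance
  have hK : Ideal.span {t} ≤ maximalIdeal B := IsLocalRing.le_maximalIdeal hne
  rw [← H379R3.map_mk_maximalIdeal, Ideal.mem_map_iff_of_surjective _ Ideal.Quotient.mk_surjective]
  constructor
  · rintro ⟨y, hy, hya⟩
    have h1 : a - y ∈ Ideal.span {t} := Ideal.Quotient.eq.1 hya.symm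
    have h2 : a = y + (a - y) := by ring
    rw [h2]
    exact Ideal.add_mem _ hy (hK h1)
  · intro ha
    exact ⟨a, ha, rfl⟩

theorem Ind.quot {x : B} {z : Fin (m + 1) → B} (h : Ind x z)
    [IsLocalRing (B ⧸ Ideal.span {z 0})] :
    Ind (Ideal.Quotient.mk (Ideal.span {z 0}) x)
      (fun i => Ideal.Quotient.mk (Ideal.span {z 0}) (Fin.tail z i)) := by
  refine ⟨mem_max_mk.2 h.1, fun i => mem_max_mk.2 (h.2.1 i.succ), fun b a hba => ?_⟩
  obtain ⟨b, rfl⟩ := Ideal.Quotient.mk_surjective b
  choose a' ha' using fun i => Ideal.Quotient.mk_surjective (a i)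
  have ha : a = fun i => Ideal.Quotient.mk (Ideal.span {z 0}) (a' i) := by
    funext i; exact (ha' i).symm
  subst ha
  rw [← H379R3.map_mk_maximalIdeal, ← Ideal.map_pow] at hba
  have hba' : Ideal.Quotient.mk (Ideal.span {z 0}) (b * x + ∑ i, a' i * Fin.tail z i) ∈
      (maximalIdeal B ^ 2).map (Ideal.Quotient.mk (Ideal.span {z 0})) := by
    simpa using hba
  obtain ⟨y, hy, hye⟩ := (Ideal.mem_map_iff_of_surjective _
    Ideal.Quotient.mk_surjective).1 hba'
  have h1 : y - (b * x + ∑ i, a' i * Fin.tail z i) ∈ Ideal.span {z 0} := Ideal.Quotient.eq.1 hye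
  obtain ⟨g, hg⟩ := Ideal.mem_span_singleton'.1 h1
  have := h.2.2 b (Fin.cons g a') (by
    rw [Fin.sum_univ_succ]
    simp only [Fin.cons_zero, Fin.cons_succ]
    have h2 : b * x + (g * z 0 + ∑ i : Fin m, a' i * z i.succ) = y := by
      rw [hg]
      simp only [Fin.tail]
      ring
    rw [h2]
    exact hy)
  exact ⟨mem_max_mk.2 this.1, fun i => mem_max_mk.2 (by simpa using this.2 i.succ)⟩

end

theorem span_split {B : Type*} [CommRing B] {m : ℕ} (z : Fin (m + 1) → B) (q : Fin (m + 1) → ℕ) :
    Ideal.span (Set.range fun i => z i ^ q i) =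
      Ideal.span (Set.range fun i : Fin m => (Fin.tail z) i ^ (Fin.tail q) i) ⊔
        Ideal.span {z 0 ^ q 0} := by
  rw [← Ideal.span_union]
  congr 1
  ext y
  constructor
  · rintro ⟨i, rfl⟩
    refine Fin.cases ?_ (fun j => ?_) i
    · right; rfl
    · left; exact ⟨j, rfl⟩
  · rintro (⟨j, rfl⟩ | rfl)
    · exact ⟨j.succ, rfl⟩
    · exact ⟨0, rfl⟩

/-- multiplication by `x` is injective modulo powers of independent elements -/
theorem regular_mod (m : ℕ) : ∀ (B : Type*) [CommRing B] [IsRegularLocalRing B] (x : B)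
    (z : Fin m → B), Ind x z → ∀ (q : Fin m → ℕ) (y : B),
    x * y ∈ Ideal.span (Set.range fun i => z i ^ q i) →
      y ∈ Ideal.span (Set.range fun i => z i ^ q i) := by
  induction m with
  | zero =>
    intro B _ _ x z h q y hy
    have hdom := H379R3.isDomain B
    have h1 : (Set.range fun i : Fin 0 => z i ^ q i) = ∅ := Set.range_eq_empty _
    rw [h1, Ideal.span_empty, Ideal.mem_bot] at hy ⊢
    rcases mul_eq_zero.1 hy with h0 | h0
    · exact absurd (by rw [h0]; exact Ideal.zero_mem _) h.not_mem_sq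
    · exact h0
  | succ m ih =>
    intro B _ _ x z h q
    have hz0 := h.head.not_mem_sq
    have hz0m : z 0 ∈ maximalIdeal B := h.2.1 0
    have hreg : IsRegularLocalRing (B ⧸ Ideal.span {z 0}) := by
      obtain ⟨d, hd⟩ := H379R3.exists_dim_eq (B := B)
      rcases Nat.eq_zero_or_pos d with rfl | hd0
      · have h1 := H379R3.dim_zero_maximalIdeal_eq_bot hd
        rw [h1] at hz0m
        rw [Ideal.mem_bot.1 hz0m] at hz0
        exact absurd (Ideal.zero_mem _) hz0
      · obtain ⟨d', rfl⟩ := Nat.exists_eq_succ_of_ne_zero hd0.ne'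
        exact (H379R3.regular_quotient (z 0) hz0m hz0 d' hd).1
    set J := Ideal.span (Set.range fun i : Fin m => (Fin.tail z) i ^ (Fin.tail q) i) with hJ
    have hxJ : ∀ y, x * y ∈ J → y ∈ J := fun y => ih B x (Fin.tail z) h.tail (Fin.tail q) y
    have hzJ : ∀ y, z 0 * y ∈ J → y ∈ J := fun y => ih B (z 0) (Fin.tail z) h.head (Fin.tail q) y
    have hJmap : J.map (Ideal.Quotient.mk (Ideal.span {z 0})) = Ideal.span (Set.range fun i : Fin m =>
        (Ideal.Quotient.mk (Ideal.span {z 0}) (Fin.tail z i)) ^ (Fin.tail q) i) := by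
      rw [hJ, Ideal.map_span, ← Set.range_comp]
      congr 1
    have h1 : ∀ y, x * y ∈ J ⊔ Ideal.span {z 0} → y ∈ J ⊔ Ideal.span {z 0} := by
      intro y hy
      have h2 := ih (B ⧸ Ideal.span {z 0}) _ _ h.quot (Fin.tail q)
        (Ideal.Quotient.mk (Ideal.span {z 0}) y)
      rw [← hJmap] at h2
      have h3 : Ideal.Quotient.mk (Ideal.span {z 0}) x * Ideal.Quotient.mk (Ideal.span {z 0}) y ∈
          J.map (Ideal.Quotient.mk (Ideal.span {z 0})) := by
        rw [← map_mul]
        obtain ⟨a, ha, b, hb, hab⟩ := Submodule.mem_sup.1 hy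
        have h4 : Ideal.Quotient.mk (Ideal.span {z 0}) (x * y) =
            Ideal.Quotient.mk (Ideal.span {z 0}) a := by
          rw [← hab, map_add, Ideal.Quotient.eq_zero_iff_mem.2 hb, add_zero]
        rw [h4]
        exact Ideal.mem_map_of_mem _ ha
      obtain ⟨a, ha, hay⟩ := (Ideal.mem_map_iff_of_surjective _
        Ideal.Quotient.mk_surjective).1 (h2 h3)
      have h5 : y - a ∈ Ideal.span {z 0} := Ideal.Quotient.eq.1 hay.symm
      have h6 : y = a + (y - a) := by ring
      rw [h6]
      exact Ideal.add_mem _ (Ideal.mem_sup_left ha) (Ideal.mem_sup_right h5)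
    have h2 : ∀ n : ℕ, ∀ y, x * y ∈ J ⊔ Ideal.span {z 0 ^ n} → y ∈ J ⊔ Ideal.span {z 0 ^ n} := by
      intro n
      induction n with
      | zero =>
        intro y _
        rw [pow_zero, Ideal.span_singleton_one]
        simp
      | succ n ihn =>
        intro y hy
        have h3 : J ⊔ Ideal.span {z 0 ^ (n + 1)} ≤ J ⊔ Ideal.span {z 0} := by
          apply sup_le_sup_left
          rw [Ideal.span_singleton_le_span_singleton]
          exact dvd_pow_self _ (Nat.succ_ne_zero n)
        obtain ⟨j, hj, w, hw, hjw⟩ := Submodule.mem_sup.1 (h1 y (h3 hy))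
        obtain ⟨y', rfl⟩ := Ideal.mem_span_singleton'.1 hw
        obtain ⟨j', hj', w', hw', hjw'⟩ := Submodule.mem_sup.1 hy
        obtain ⟨b, rfl⟩ := Ideal.mem_span_singleton'.1 hw'
        have h4 : z 0 * (x * y' - b * z 0 ^ n) ∈ J := by
          have : z 0 * (x * y' - b * z 0 ^ n) = j' - x * j := by
            have e1 : j' = x * y - b * z 0 ^ (n + 1) := by rw [← hjw']; ring
            rw [e1, ← hjw]
            ring
          rw [this]
          exact Ideal.sub_mem _ hj' (Ideal.mul_mem_left _ _ hj)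
        have h5 := hzJ _ h4
        have h6 : x * y' ∈ J ⊔ Ideal.span {z 0 ^ n} := by
          have : x * y' = (x * y' - b * z 0 ^ n) + b * z 0 ^ n := by ring
          rw [this]
          exact Ideal.add_mem _ (Ideal.mem_sup_left h5)
            (Ideal.mem_sup_right (Ideal.mem_span_singleton'.2 ⟨b, rfl⟩))
        obtain ⟨j2, hj2, w2, hw2, hjw2⟩ := Submodule.mem_sup.1 (ihn y' h6)
        obtain ⟨b2, rfl⟩ := Ideal.mem_span_singleton'.1 hw2
        rw [← hjw, ← hjw2]
        have : j + (j2 + b2 * z 0 ^ n) * z 0 = (j + z 0 * j2) + b2 * z 0 ^ (n + 1) := by ring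
        rw [this]
        exact Ideal.add_mem _ (Ideal.mem_sup_left (Ideal.add_mem _ hj (Ideal.mul_mem_left _ _ hj2)))
          (Ideal.mem_sup_right (Ideal.mem_span_singleton'.2 ⟨b2, rfl⟩))
    intro y hy
    rw [span_split] at hy ⊢
    exact h2 (q 0) y hy

/-- In a regular local ring the maximal ideal is generated by independent elements, the first of
which may be prescribed. -/
theorem exists_ind {B : Type*} [CommRing B] [IsRegularLocalRing B] (t : B)
    (ht : t ∈ maximalIdeal B) (ht2 : t ∉ maximalIdeal B ^ 2) :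
    ∃ (m : ℕ) (z : Fin m → B), Ind t z ∧
      maximalIdeal B = Ideal.span {t} ⊔ Ideal.span (Set.range z) := by
  classical
  obtain ⟨d, z, i₀, hd, hz, hi⟩ := H379R3.exists_param_of_mem t ht ht2
  have hfr : Module.finrank (ResidueField B) (CotangentSpace B) = d := by
    have := H379R3.finrank_cotangent (B := B)
    rw [hd] at this
    exact_mod_cast this
  have hzm : ∀ i, z i ∈ maximalIdeal B := fun i => by
    rw [← hz]; exact Ideal.subset_span ⟨i, rfl⟩
  let v : Fin d → CotangentSpace B := fun i => (maximalIdeal B).toCotangent ⟨z i, hzm i⟩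
  have hspan : Submodule.span (ResidueField B) (Set.range v) = ⊤ := by
    have h1 : Set.range v = (maximalIdeal B).toCotangent ''
        (Set.range fun i => (⟨z i, hzm i⟩ : maximalIdeal B)) := by
      rw [← Set.range_comp]; rfl
    rw [h1, CotangentSpace.span_image_eq_top_iff]
    apply Submodule.map_injective_of_injective (Submodule.subtype_injective (maximalIdeal B))
    rw [Submodule.map_span, Submodule.map_top, Submodule.range_subtype, ← Set.range_comp]
    exact hz
  have hli : LinearIndependent (ResidueField B) v :=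
    linearIndependent_of_top_le_span_of_card_eq_finrank hspan.ge (by simp [hfr])
  have hkey : ∀ a : Fin d → B, ∑ i, a i * z i ∈ maximalIdeal B ^ 2 → ∀ i, a i ∈ maximalIdeal B := by
    intro a ha i
    have h1 : ∑ i, (residue B (a i)) • v i = 0 := by
      have h2 : ∑ i, (residue B (a i)) • v i = (maximalIdeal B).toCotangent
          (∑ i, a i • (⟨z i, hzm i⟩ : maximalIdeal B)) := by
        rw [map_sum]
        apply Finset.sum_congr rfl
        intro i _
        rw [map_smul]
        rfl
      rw [h2, Ideal.toCotangent_eq_zero]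
      simpa using ha
    have h3 := Fintype.linearIndependent_iff.1 hli _ h1 i
    rwa [residue_eq_zero_iff] at h3
  cases d with
  | zero => exact i₀.elim0
  | succ m =>
    refine ⟨m, fun i => z (i₀.succAbove i), ⟨ht, fun i => hzm _, fun b a hba => ?_⟩, ?_⟩
    · have h1 := hkey (i₀.insertNth b a) (by
        rw [Fin.sum_univ_succAbove _ i₀]
        simpa [hi] using hba)
      exact ⟨by simpa using h1 i₀, fun i => by simpa using h1 (i₀.succAbove i)⟩
    · rw [← hz, ← Ideal.span_union]
      congr 1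
      ext y
      constructor
      · rintro ⟨i, rfl⟩
        rcases Fin.eq_self_or_eq_succAbove i₀ i with rfl | ⟨j, rfl⟩
        · left; exact hi
        · right; exact ⟨j, rfl⟩
      · rintro (rfl | ⟨j, rfl⟩)
        · exact ⟨i₀, hi⟩
        · exact ⟨_, rfl⟩

end Pool.Agent.T9h72.FP
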