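import Mathlib

/-! A step of the local criterion of flatness, for submodules of modules killed by a power of the
maximal ideal. -/

set_option autoImplicit false

namespace Pool.Agent.T9h72.FP

open TensorProduct LinearMap

universe u v

/-- For every module `F` killed by `I` and every submodule `K` containing `J ^ n F` for some `n`,
the map `K ⊗ M → F ⊗ M` is injective. -/
def GInj (B : Type u) [CommRing B] (J I : Ideal B) (M : Type v) [AddCommGroup M] [Module B M] :
    Prop :=
  ∀ (F : Type u) [AddCommGroup F] [Module B F] (K : Submodule B F),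
    (∀ b ∈ I, ∀ f : F, b • f = 0) → (∃ n : ℕ, ∀ b ∈ J ^ n, ∀ f : F, b • f ∈ K) →
      Function.Injective (K.subtype.rTensor M)

theorem gInj_max (B : Type u) [CommRing B] (J : Ideal B) [J.IsMaximal] (M : Type v)
    [AddCommGroup M] [Module B M] : GInj B J J M := by
  intro F _ _ K hI _
  have hM : Module.IsTorsionBySet B F (J : Set B) := by
    intro f b
    exact hI b b.2 f
  let _ := hM.module
  let _ : Field (B ⧸ J) := Ideal.Quotient.field J
  have hss : IsSemisimpleModule (B ⧸ J) F := inferInstance
  have hss' : IsSemisimpleModule B F := (hM.isSemisimpleModule_iff).1 hss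
  obtain ⟨L, hL⟩ := exists_isCompl K
  have h1 : (Submodule.projectionOnto K L hL) ∘ₗ K.subtype = LinearMap.id :=
    Submodule.projectionOnto_comp_subtype hL
  have h2 : ((Submodule.projectionOnto K L hL).rTensor M) ∘ₗ (K.subtype.rTensor M) =
      LinearMap.id := by
    rw [← rTensor_comp, h1, rTensor_id]
  intro a b hab
  have := congrArg ((Submodule.projectionOnto K L hL).rTensor M) hab
  rw [← LinearMap.comp_apply, ← LinearMap.comp_apply, h2] at this
  exact this

section chase
variable {B : Type u} [CommRing B] {M : Type v} [AddCommGroup M] [Module B M]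

/-- chase along a surjection -/
theorem chaseA {F F' : Type*} [AddCommGroup F] [Module B F] [AddCommGroup F'] [Module B F']
    (p : F' →ₗ[B] F) (hp : Function.Surjective p) (K : Submodule B F)
    (h : Function.Injective ((K.comap p).subtype.rTensor M)) :
    Function.Injective (K.subtype.rTensor M) := by
  let pK : K.comap p →ₗ[B] K := (p.restrict (p := K.comap p) (q := K) (fun x hx => hx))
  have hpK : Function.Surjective pK := by
    rintro ⟨k, hk⟩
    obtain ⟨f, hf⟩ := hp k
    exact ⟨⟨f, by simpa [hf] using hk⟩, Subtype.ext hf⟩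
  have hker : ker p ≤ K.comap p := by
    intro f hf
    rw [Submodule.mem_comap, LinearMap.mem_ker.1 hf]
    exact K.zero_mem
  rw [← LinearMap.ker_eq_bot, LinearMap.ker_eq_bot']
  intro z hz
  obtain ⟨z', rfl⟩ := LinearMap.rTensor_surjective M hpK z
  have hcomm : K.subtype ∘ₗ pK = p ∘ₗ (K.comap p).subtype := by
    ext x; rfl
  have h1 : (p.rTensor M) (((K.comap p).subtype.rTensor M) z') = 0 := by
    rw [← LinearMap.comp_apply, ← rTensor_comp, ← hcomm, rTensor_comp, LinearMap.comp_apply]
    exact hz
  have hex : Function.Exact (ker p).subtype p := LinearMap.exact_subtype_ker_map p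
  obtain ⟨l, hl⟩ := (rTensor_exact M hex hp _).1 h1
  have h2 : (ker p).subtype = (K.comap p).subtype ∘ₗ Submodule.inclusion hker := by
    ext x; rfl
  rw [h2, rTensor_comp, LinearMap.comp_apply] at hl
  have h3 := h hl
  rw [← h3, ← LinearMap.comp_apply, ← rTensor_comp]
  have h4 : pK ∘ₗ Submodule.inclusion hker = 0 := by
    ext x
    exact x.2
  rw [h4, rTensor_zero]
  rfl

/-- chase modulo `x F` -/
theorem chaseB {F : Type*} [AddCommGroup F] [Module B F] (x : B) (K : Submodule B F)
    (hxK : ∀ f : F, x • f ∈ K) (hreg : ∀ w : F ⊗[B] M, x • w = 0 → w = 0)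
    (h : Function.Injective
      ((K.map (range (x • (LinearMap.id : F →ₗ[B] F))).mkQ).subtype.rTensor M)) :
    Function.Injective (K.subtype.rTensor M) := by
  set μ : F →ₗ[B] F := x • (LinearMap.id : F →ₗ[B] F) with hμ
  set N := range μ with hN
  have hNK : N ≤ K := by
    rintro _ ⟨f, rfl⟩
    exact hxK f
  let πK : K →ₗ[B] K.map N.mkQ :=
    N.mkQ.restrict (p := K) (q := K.map N.mkQ) (fun f hf => Submodule.mem_map_of_mem hf)
  have hπ : Function.Surjective πK := by
    rintro ⟨_, ⟨k, hk, rfl⟩⟩
    exact ⟨⟨k, hk⟩, rfl⟩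
  have hex : Function.Exact (Submodule.inclusion hNK) πK := by
    intro k
    constructor
    · intro hk
      have h1 : N.mkQ (k : F) = 0 := congrArg Subtype.val hk
      have h2 : (k : F) ∈ N := by
        rw [← Submodule.Quotient.mk_eq_zero N]; exact h1
      exact ⟨⟨k, h2⟩, Subtype.ext rfl⟩
    · rintro ⟨n, rfl⟩
      apply Subtype.ext
      exact (Submodule.Quotient.mk_eq_zero N).2 n.2
  rw [← LinearMap.ker_eq_bot, LinearMap.ker_eq_bot']
  intro z hz
  have hcomm : (K.map N.mkQ).subtype ∘ₗ πK = N.mkQ ∘ₗ K.subtype := by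
    ext x; rfl
  have h1 : (πK.rTensor M) z = 0 := by
    apply h
    rw [map_zero, ← LinearMap.comp_apply, ← rTensor_comp, hcomm, rTensor_comp,
      LinearMap.comp_apply, hz, map_zero]
  obtain ⟨w, rfl⟩ := (rTensor_exact M hex hπ _).1 h1
  obtain ⟨w', rfl⟩ := LinearMap.rTensor_surjective M (LinearMap.surjective_rangeRestrict μ) w
  have h2 : K.subtype ∘ₗ Submodule.inclusion hNK ∘ₗ μ.rangeRestrict = μ := by
    ext x; rfl
  have h3 : (μ.rTensor M) w' = 0 := by
    rw [← h2, rTensor_comp, rTensor_comp]
    exact hz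
  have h4 : (μ.rTensor M) w' = x • w' := by
    rw [hμ, rTensor_smul, rTensor_id]
    rfl
  rw [hreg w' (h4.symm.trans h3), map_zero, map_zero]

theorem reg_finsupp {ι : Type*} (I : Ideal B) (x : B)
    (hxM : ∀ m : M, x • m ∈ (I • ⊤ : Submodule B M) → m ∈ (I • ⊤ : Submodule B M))
    (w : (ι →₀ B ⧸ I) ⊗[B] M) (hw : x • w = 0) : w = 0 := by
  have h1 : ∀ t : (B ⧸ I) ⊗[B] M, x • t = 0 → t = 0 := by
    intro t ht
    set e := quotTensorEquivQuotSMul M I
    have h2 : x • e t = 0 := by rw [← map_smul, ht, map_zero]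
    have h3 : e t = 0 := by
      obtain ⟨m, hm⟩ := Submodule.Quotient.mk_surjective _ (e t)
      rw [← hm] at h2 ⊢
      rw [← Submodule.Quotient.mk_smul, Submodule.Quotient.mk_eq_zero] at h2
      rw [Submodule.Quotient.mk_eq_zero]
      exact hxM m h2
    exact (LinearEquiv.map_eq_zero_iff e).1 h3
  classical
  set e2 := TensorProduct.finsuppLeft B B (B ⧸ I) M ι
  have h4 : x • e2 w = 0 := by rw [← map_smul, hw, map_zero]
  have h5 : e2 w = 0 := by
    ext i
    have h6 := DFunLike.congr_fun h4 i
    rw [Finsupp.smul_apply, Finsupp.zero_apply] at h6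
    rw [h1 _ h6, Finsupp.zero_apply]
  exact (LinearEquiv.map_eq_zero_iff e2).1 h5

end chase

theorem gInj_step {B : Type u} [CommRing B] (J I : Ideal B) (M : Type v)
    [AddCommGroup M] [Module B M] (x : B) (hxJ : x ∈ J)
    (hxM : ∀ m : M, x • m ∈ (I • ⊤ : Submodule B M) → m ∈ (I • ⊤ : Submodule B M))
    (h : GInj B J (I ⊔ Ideal.span {x}) M) : GInj B J I M := by
  -- first the case `x F ⊆ K`
  have key : ∀ (F : Type u) [AddCommGroup F] [Module B F] (K : Submodule B F),
      (∀ b ∈ I, ∀ f : F, b • f = 0) → (∃ n : ℕ, ∀ b ∈ J ^ n, ∀ f : F, b • f ∈ K) →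
      (∀ f : F, x • f ∈ K) → Function.Injective (K.subtype.rTensor M) := by
    intro F _ _ K hI hn hx
    -- the cover
    have hle : ∀ f : F, I ≤ LinearMap.ker (LinearMap.toSpanSingleton B F f) := by
      intro f b hb
      rw [LinearMap.mem_ker, LinearMap.toSpanSingleton_apply]
      exact hI b hb f
    let p : (F →₀ B ⧸ I) →ₗ[B] F :=
      Finsupp.lsum B fun f => Submodule.liftQ I (LinearMap.toSpanSingleton B F f) (hle f)
    have hp : Function.Surjective p := by
      intro f
      refine ⟨Finsupp.single f (Submodule.Quotient.mk 1), ?_⟩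
      rw [Finsupp.lsum_single]
      erw [Submodule.liftQ_apply]
      rw [LinearMap.toSpanSingleton_apply, one_smul]
    apply chaseA p hp K
    have hxK' : ∀ f : F →₀ B ⧸ I, x • f ∈ K.comap p := by
      intro f
      rw [Submodule.mem_comap, map_smul]
      exact hx _
    apply chaseB x (K.comap p) hxK' (reg_finsupp I x hxM)
    apply h
    · intro b hb f
      obtain ⟨b1, hb1, b2, hb2, rfl⟩ := Submodule.mem_sup.1 hb
      obtain ⟨c, rfl⟩ := Ideal.mem_span_singleton'.1 hb2
      obtain ⟨g, rfl⟩ := Submodule.Quotient.mk_surjective _ f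
      have h1 : b1 • g = 0 := by
        ext i
        rw [Finsupp.smul_apply, Finsupp.zero_apply]
        obtain ⟨r, hr⟩ := Ideal.Quotient.mk_surjective (g i)
        rw [← hr, Algebra.smul_def, Ideal.Quotient.algebraMap_eq,
          Ideal.Quotient.eq_zero_iff_mem.2 hb1, zero_mul]
      rw [← Submodule.Quotient.mk_smul, add_smul, h1, zero_add, Submodule.Quotient.mk_eq_zero]
      refine ⟨c • g, ?_⟩
      show x • (c • g) = (c * x) • g
      rw [smul_smul, mul_comm]
    · obtain ⟨n, hn⟩ := hn
      refine ⟨n, fun b hb f => ?_⟩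
      obtain ⟨g, rfl⟩ := Submodule.Quotient.mk_surjective _ f
      rw [← Submodule.Quotient.mk_smul]
      refine ⟨b • g, ?_, rfl⟩
      show p (b • g) ∈ K
      rw [map_smul]
      exact hn b hb _
  have key2 : ∀ (n : ℕ) (F : Type u) [AddCommGroup F] [Module B F] (K : Submodule B F),
      (∀ b ∈ I, ∀ f : F, b • f = 0) → (∃ n : ℕ, ∀ b ∈ J ^ n, ∀ f : F, b • f ∈ K) →
      (∀ f : F, x ^ n • f ∈ K) → Function.Injective (K.subtype.rTensor M) := by
    intro n
    induction n with
    | zero =>
      intro F _ _ K _ _ hx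
      have hK : K = ⊤ := by
        rw [eq_top_iff]
        intro f _
        simpa using hx f
      subst hK
      have h1 : (⊤ : Submodule B F).subtype = (Submodule.topEquiv : _ ≃ₗ[B] F).toLinearMap := by
        ext x; rfl
      rw [h1]
      exact (LinearEquiv.rTensor M (Submodule.topEquiv : _ ≃ₗ[B] F)).injective
    | succ n ih =>
      intro F _ _ K hI hn hx
      obtain ⟨n', hn'⟩ := hn
      set L : Submodule B F := K ⊔ range (x ^ n • (LinearMap.id : F →ₗ[B] F)) with hL
      have hKL : K ≤ L := le_sup_left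
      have h1 : Function.Injective (L.subtype.rTensor M) :=
        ih F L hI ⟨n', fun b hb f => hKL (hn' b hb f)⟩ fun f =>
          (le_sup_right : range _ ≤ L) ⟨f, rfl⟩
      have h2 : Function.Injective ((K.comap L.subtype).subtype.rTensor M) := by
        apply key L (K.comap L.subtype)
        · intro b hb f
          apply Subtype.ext
          exact hI b hb f
        · exact ⟨n', fun b hb f => hn' b hb f⟩
        · rintro ⟨f, hf⟩
          show x • f ∈ K
          obtain ⟨k, hk, _, ⟨g, rfl⟩, rfl⟩ := Submodule.mem_sup.1 hf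
          rw [smul_add]
          refine K.add_mem (K.smul_mem _ hk) ?_
          have : x • (x ^ n • (LinearMap.id : F →ₗ[B] F)) g = x ^ (n + 1) • g := by
            simp [smul_smul, pow_succ, mul_comm]
          rw [this]
          exact hx g
      let e : K →ₗ[B] K.comap L.subtype :=
        { toFun := fun k => ⟨⟨k, hKL k.2⟩, k.2⟩
          map_add' := fun _ _ => rfl
          map_smul' := fun _ _ => rfl }
      let e' : K.comap L.subtype →ₗ[B] K :=
        { toFun := fun k => ⟨k.1.1, k.2⟩
          map_add' := fun _ _ => rfl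
          map_smul' := fun _ _ => rfl }
      have h3 : Function.Injective (e.rTensor M) := by
        have h4 : (e'.rTensor M) ∘ₗ (e.rTensor M) = LinearMap.id := by
          rw [← rTensor_comp]
          have : e' ∘ₗ e = LinearMap.id := by ext x; rfl
          rw [this, rTensor_id]
        intro a b hab
        have := congrArg (e'.rTensor M) hab
        rw [← LinearMap.comp_apply, ← LinearMap.comp_apply, h4] at this
        exact this
      have h5 : K.subtype = L.subtype ∘ₗ (K.comap L.subtype).subtype ∘ₗ e := by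
        ext x; rfl
      rw [h5, rTensor_comp, rTensor_comp]
      exact h1.comp (h2.comp h3)
  intro F _ _ K hI hn
  obtain ⟨n, hn⟩ := hn
  exact key2 n F K hI ⟨n, hn⟩ fun f => hn _ (Ideal.pow_mem_pow hxJ n) f

end Pool.Agent.T9h72.FP
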