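import Mathlib
import Pool.Agent.T9h72.FP.Ind
import Pool.Agent.T9h72.FP.Tor
import Pool.Agent.T9h72.FP.Defs

/-! Purity over a regular local ring. -/

set_option autoImplicit false

namespace Pool.Agent.T9h72.FP

open TensorProduct IsLocalRing

universe u

/-- the ideal generated by the `q`-th powers of the elements of `I` -/
def fpow {R : Type*} [CommRing R] (q : ℕ) (I : Ideal R) : Ideal R :=
  Ideal.span ((fun a => a ^ q) '' (I : Set R))

section
variable {p e : ℕ} [Fact p.Prime] {R : Type u} [CommRing R] [CharP R p]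

theorem pow_mem_span {k : ℕ} (z : Fin k → R) {a : R} (ha : a ∈ Ideal.span (Set.range z)) :
    a ^ p ^ e ∈ Ideal.span (Set.range fun i => z i ^ p ^ e) := by
  obtain ⟨c, rfl⟩ := Ideal.mem_span_range_iff_exists_fun.1 ha
  rw [sum_pow_char_pow]
  apply Ideal.sum_mem
  intro i _
  rw [mul_pow]
  exact Ideal.mul_mem_left _ _ (Ideal.subset_span ⟨i, rfl⟩)

theorem mem_smul_top {k : ℕ} (z : Fin k → R) (s : R) :
    of p e s ∈ (Ideal.span (Set.range z) • ⊤ : Submodule R (Fstar p e R)) ↔
      s ∈ Ideal.span (Set.range fun i => z i ^ p ^ e) := by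
  constructor
  · intro h
    have key : ∀ m : Fstar p e R,
        m ∈ (Ideal.span (Set.range z) • ⊤ : Submodule R (Fstar p e R)) →
        ∀ s : R, m = of p e s → s ∈ Ideal.span (Set.range fun i => z i ^ p ^ e) := by
      intro m hm
      refine Submodule.smul_induction_on hm ?_ ?_
      · intro a ha n _ s hs
        have h1 : a • of p e (show R from n) = of p e s := hs
        rw [smul_of] at h1
        have h2 : a ^ p ^ e * (show R from n) = s := h1
        rw [← h2]
        exact Ideal.mul_mem_right _ _ (pow_mem_span z ha)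
      · intro x y hx hy s hs
        have h2 : (show R from x) + (show R from y) = s := hs
        rw [← h2]
        exact Ideal.add_mem _ (hx _ rfl) (hy _ rfl)
    exact key _ h s rfl
  · intro h
    obtain ⟨c, rfl⟩ := Ideal.mem_span_range_iff_exists_fun.1 h
    have h1 : of p e (∑ i, c i * z i ^ p ^ e) = ∑ i, z i • of p e (c i) := by
      have h2 : ∀ i, z i • of p e (c i) = of p e (c i * z i ^ p ^ e) := by
        intro i
        rw [smul_of, mul_comm]
      simp only [h2]
      rfl
    rw [h1]
    apply Submodule.sum_mem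
    intro i _
    exact Submodule.smul_mem_smul (Ideal.subset_span ⟨i, rfl⟩) trivial

theorem span_pow_le_fpow {k : ℕ} (q : ℕ) (z : Fin k → R) :
    Ideal.span (Set.range fun i => z i ^ q) ≤ fpow q (Ideal.span (Set.range z)) := by
  rw [Ideal.span_le]
  rintro _ ⟨i, rfl⟩
  exact Ideal.subset_span ⟨z i, Ideal.subset_span ⟨i, rfl⟩, rfl⟩

theorem fpow_le_span_pow {k : ℕ} (z : Fin k → R) :
    fpow (p ^ e) (Ideal.span (Set.range z)) ≤ Ideal.span (Set.range fun i => z i ^ p ^ e) := by
  rw [fpow, Ideal.span_le]
  rintro _ ⟨a, ha, rfl⟩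
  exact pow_mem_span z ha

end

section
variable {p e : ℕ} [Fact p.Prime] {B : Type u} [CommRing B] [IsRegularLocalRing B] [CharP B p]

theorem gInj_chain (m : ℕ) : ∀ (t : B) (z : Fin m → B), Ind t z →
    GInj B (maximalIdeal B) (Ideal.span (Set.range z)) (Fstar p e B) →
      GInj B (maximalIdeal B) ⊥ (Fstar p e B) := by
  induction m with
  | zero =>
    intro t z _ h
    have h1 : Set.range z = ∅ := Set.range_eq_empty _
    rwa [h1, Ideal.span_empty] at h
  | succ m ih =>
    intro t z hz h
    apply ih t (Fin.tail z) hz.tail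
    apply gInj_step (maximalIdeal B) _ (Fstar p e B) (z 0) (hz.2.1 0)
    · intro m hm
      have hm' : z 0 • of p e (show B from m) ∈
          (Ideal.span (Set.range (Fin.tail z)) • ⊤ : Submodule B (Fstar p e B)) := hm
      rw [smul_of, mem_smul_top] at hm'
      show of p e (show B from m) ∈
          (Ideal.span (Set.range (Fin.tail z)) • ⊤ : Submodule B (Fstar p e B))
      rw [mem_smul_top]
      have key : ∀ n : ℕ, ∀ s : B, z 0 ^ n * s ∈
          Ideal.span (Set.range fun i => (Fin.tail z) i ^ p ^ e) →
          s ∈ Ideal.span (Set.range fun i => (Fin.tail z) i ^ p ^ e) := by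
        intro n
        induction n with
        | zero => intro s hs; simpa using hs
        | succ n ihn =>
          intro s hs
          apply ihn
          apply regular_mod _ B (z 0) (Fin.tail z) hz.head (fun _ => p ^ e)
          rw [← mul_assoc, ← pow_succ']
          exact hs
      exact key _ _ hm'
    · have h1 : Ideal.span (Set.range (Fin.tail z)) ⊔ Ideal.span {z 0} =
          Ideal.span (Set.range z) := by
        rw [← Ideal.span_union]
        congr 1
        ext y
        constructor
        · rintro (⟨j, rfl⟩ | rfl)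
          · exact ⟨j.succ, rfl⟩
          · exact ⟨0, rfl⟩
        · rintro ⟨i, rfl⟩
          refine Fin.cases ?_ (fun j => ?_) i
          · right; rfl
          · left; exact ⟨j, rfl⟩
      rw [h1]
      exact h

theorem gInj_bot : GInj B (maximalIdeal B) ⊥ (Fstar p e B) := by
  by_cases h0 : maximalIdeal B ≤ maximalIdeal B ^ 2
  · have h1 : maximalIdeal B = ⊥ := by
      apply Submodule.eq_bot_of_le_smul_of_le_jacobson_bot (maximalIdeal B) (maximalIdeal B)
        (maximalIdeal B).fg_of_isNoetherianRing
      · rw [smul_eq_mul, ← pow_two]; exact h0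
      · exact IsLocalRing.maximalIdeal_le_jacobson _
    have h2 := gInj_max B (maximalIdeal B) (Fstar p e B)
    rwa [← h1]
  · obtain ⟨t, ht, ht2⟩ := Set.not_subset.1 h0
    obtain ⟨m, z, hz, hmax⟩ := exists_ind t ht ht2
    apply gInj_chain m t z hz
    apply gInj_step (maximalIdeal B) _ (Fstar p e B) t ht
    · intro m hm
      have hm' : t • of p e (show B from m) ∈
          (Ideal.span (Set.range z) • ⊤ : Submodule B (Fstar p e B)) := hm
      rw [smul_of, mem_smul_top] at hm'
      show of p e (show B from m) ∈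
          (Ideal.span (Set.range z) • ⊤ : Submodule B (Fstar p e B))
      rw [mem_smul_top]
      have key : ∀ n : ℕ, ∀ s : B, t ^ n * s ∈
          Ideal.span (Set.range fun i => z i ^ p ^ e) →
          s ∈ Ideal.span (Set.range fun i => z i ^ p ^ e) := by
        intro n
        induction n with
        | zero => intro s hs; simpa using hs
        | succ n ihn =>
          intro s hs
          apply ihn
          apply regular_mod _ B t z hz (fun _ => p ^ e)
          rw [← mul_assoc, ← pow_succ']
          exact hs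
      exact key _ _ hm'
    · rw [sup_comm, ← hmax]
      exact gInj_max B (maximalIdeal B) (Fstar p e B)

/-- **Purity over a regular local ring.** -/
theorem local_pure (c : B) (hc : c ∉ fpow (p ^ e) (maximalIdeal B)) (P : Type u) [AddCommGroup P]
    [Module B P] [Module.Finite B P] (u : P) (hu : u ⊗ₜ[B] of p e c = (0 : P ⊗[B] Fstar p e B)) :
    u = 0 := by
  by_contra hne
  have hkrull : (⨅ i : ℕ, maximalIdeal B ^ i • (⊤ : Submodule B P)) = ⊥ :=
    Ideal.iInf_pow_smul_eq_bot_of_isLocalRing _ (maximalIdeal.isMaximal B).ne_top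
  have hn : ∃ n : ℕ, u ∉ (maximalIdeal B ^ n • ⊤ : Submodule B P) := by
    by_contra hcon
    push Not at hcon
    apply hne
    have : u ∈ (⨅ i : ℕ, maximalIdeal B ^ i • (⊤ : Submodule B P)) := by
      rw [Submodule.mem_iInf]
      exact hcon
    rw [hkrull] at this
    exact this
  obtain ⟨n, hn⟩ := hn
  set L : Submodule B P := maximalIdeal B ^ n • ⊤ with hL
  set u' : P ⧸ L := L.mkQ u with hu'
  have hu0 : u' ≠ 0 := by
    intro h
    exact hn ((Submodule.Quotient.mk_eq_zero L).1 h)
  have h1 : u' ⊗ₜ[B] of p e c = (0 : (P ⧸ L) ⊗[B] Fstar p e B) := by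
    have := congrArg ((L.mkQ).rTensor (Fstar p e B)) hu
    rwa [LinearMap.rTensor_tmul, map_zero] at this
  set K : Submodule B (P ⧸ L) := Submodule.span B {u'} with hK
  have hkill : ∀ b ∈ maximalIdeal B ^ n, ∀ f : P ⧸ L, b • f = 0 := by
    intro b hb f
    obtain ⟨f, rfl⟩ := Submodule.Quotient.mk_surjective _ f
    rw [← Submodule.Quotient.mk_smul, Submodule.Quotient.mk_eq_zero]
    exact Submodule.smul_mem_smul hb trivial
  have hinj := gInj_bot (p := p) (e := e) (B := B) (P ⧸ L) K
    (fun b hb f => by rw [Ideal.mem_bot.1 hb, zero_smul])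
    ⟨n, fun b hb f => by rw [hkill b hb f]; exact K.zero_mem⟩
  set w : K := ⟨u', Submodule.mem_span_singleton_self u'⟩ with hw
  have h2 : w ⊗ₜ[B] of p e c = (0 : K ⊗[B] Fstar p e B) := by
    apply hinj
    rw [LinearMap.rTensor_tmul, map_zero]
    exact h1
  -- a functional
  let f : B →ₗ[B] K := LinearMap.toSpanSingleton B K w
  have hf : Function.Surjective f := by
    rintro ⟨k, hk⟩
    obtain ⟨b, rfl⟩ := Submodule.mem_span_singleton.1 hk
    exact ⟨b, rfl⟩
  have hker : LinearMap.ker f ≤ maximalIdeal B := by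
    intro b hb
    by_contra hcon
    have hunit : IsUnit b := by
      by_contra h
      exact hcon ((mem_maximalIdeal _).2 h)
    have h3 : b • u' = 0 := congrArg Subtype.val (LinearMap.mem_ker.1 hb)
    exact hu0 ((hunit.smul_eq_zero).1 h3)
  let φ : K →ₗ[B] B ⧸ maximalIdeal B :=
    (Submodule.mapQ (LinearMap.ker f) (maximalIdeal B) LinearMap.id hker) ∘ₗ
      (f.quotKerEquivOfSurjective hf).symm.toLinearMap
  have hφ : φ w = Submodule.Quotient.mk 1 := by
    have h4 : (f.quotKerEquivOfSurjective hf).symm w = Submodule.Quotient.mk 1 := by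
      rw [LinearEquiv.symm_apply_eq]
      show w = f 1
      simp [f]
    show Submodule.mapQ (LinearMap.ker f) (maximalIdeal B) LinearMap.id hker
      ((f.quotKerEquivOfSurjective hf).symm w) = _
    rw [h4]
    rfl
  have h5 : (Submodule.Quotient.mk 1 : B ⧸ maximalIdeal B) ⊗ₜ[B] of p e c =
      (0 : (B ⧸ maximalIdeal B) ⊗[B] Fstar p e B) := by
    have := congrArg (φ.rTensor (Fstar p e B)) h2
    rwa [LinearMap.rTensor_tmul, map_zero, hφ] at this
  have h6 := congrArg (quotTensorEquivQuotSMul (Fstar p e B) (maximalIdeal B)) h5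
  rw [map_zero] at h6
  have h7 : of p e c ∈ (maximalIdeal B • ⊤ : Submodule B (Fstar p e B)) := by
    rw [← Submodule.Quotient.mk_eq_zero, ← h6]
    have : (Submodule.Quotient.mk 1 : B ⧸ maximalIdeal B) = Ideal.Quotient.mk _ 1 := rfl
    rw [this, quotTensorEquivQuotSMul_mk_tmul, one_smul]
  obtain ⟨k, z, hz⟩ : ∃ (k : ℕ) (z : Fin k → B), Ideal.span (Set.range z) = maximalIdeal B := by
    obtain ⟨k, z, hz⟩ := Submodule.fg_iff_exists_fin_generating_family.1
      (maximalIdeal B).fg_of_isNoetherianRing
    exact ⟨k, z, hz⟩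
  rw [← hz, mem_smul_top] at h7
  apply hc
  rw [← hz]
  exact span_pow_le_fpow _ z h7

end

end Pool.Agent.T9h72.FP
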