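import Mathlib
import Pool.Agent.T9h72.FP.Local

/-! From local conditions to purity of `λ_c^e`. -/

set_option autoImplicit false

namespace Pool.Agent.T9h72.FP

open TensorProduct IsLocalRing

universe u

section
variable {p e : ℕ} [Fact p.Prime] {R : Type u} [CommRing R] [CharP R p]

theorem charP_of_algebra (p : ℕ) [Fact p.Prime] (R : Type*) [CommRing R] [CharP R p] (A : Type*)
    [CommRing A] [Nontrivial A] (f : R →+* A) : CharP A p := by
  rw [CharP.charP_iff_prime_eq_zero Fact.out]
  have : ((p : R) : R) = 0 := CharP.cast_eq_zero R p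
  rw [← map_natCast f, this, map_zero]

theorem loc_step (q : Ideal R) [q.IsPrime] [IsRegularLocalRing (Localization.AtPrime q)]
    [CharP (Localization.AtPrime q) p] (c : R)
    (hc : algebraMap R (Localization.AtPrime q) c ∉
      fpow (p ^ e) (maximalIdeal (Localization.AtPrime q)))
    (P : Type u) [AddCommGroup P] [Module R P] [Module.Finite R P] (u : P)
    (hu : u ⊗ₜ[R] of p e c = (0 : P ⊗[R] Fstar p e R)) :
    ((1 : Localization.AtPrime q) ⊗ₜ[R] u : Localization.AtPrime q ⊗[R] P) = 0 := by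
  set B := Localization.AtPrime q with hB
  let ψ : Fstar p e R →+ Fstar p e B := (algebraMap R B).toAddMonoidHom
  have hψ : ∀ (r : R) (m : Fstar p e R), ψ (r • m) = algebraMap R B r • ψ m := by
    intro r m
    obtain ⟨s, rfl⟩ : ∃ s : R, of p e s = m := ⟨m, rfl⟩
    have h0 : ∀ s : R, ψ (of p e s) = of p e (algebraMap R B s) := fun s => rfl
    rw [smul_of, h0, h0, smul_of, map_mul, map_pow]
  let Φ : P ⊗[R] Fstar p e R →+ (B ⊗[R] P) ⊗[B] Fstar p e B :=
    TensorProduct.liftAddHom
      { toFun := fun x => 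
          { toFun := fun m => ((1 : B) ⊗ₜ[R] x) ⊗ₜ[B] ψ m
            map_zero' := by rw [map_zero, tmul_zero]
            map_add' := fun a b => by rw [map_add, tmul_add] }
        map_zero' := by ext m; simp
        map_add' := fun a b => by
          ext m
          show ((1 : B) ⊗ₜ[R] (a + b)) ⊗ₜ[B] ψ m = ((1 : B) ⊗ₜ[R] a) ⊗ₜ[B] ψ m +
            ((1 : B) ⊗ₜ[R] b) ⊗ₜ[B] ψ m
          rw [tmul_add, add_tmul] }
      (by
        intro r x m
        show ((1 : B) ⊗ₜ[R] (r • x)) ⊗ₜ[B] ψ m = ((1 : B) ⊗ₜ[R] x) ⊗ₜ[B] ψ (r • m)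
        rw [hψ, ← TensorProduct.smul_tmul (algebraMap R B r) ((1 : B) ⊗ₜ[R] x) (ψ m),
          TensorProduct.smul_tmul' (algebraMap R B r) (1 : B) x, smul_eq_mul, mul_one,
          tmul_smul, TensorProduct.smul_tmul', Algebra.smul_def, mul_one])
  have h1 : Φ (u ⊗ₜ[R] of p e c) = ((1 : B) ⊗ₜ[R] u) ⊗ₜ[B] of p e (algebraMap R B c) := rfl
  have h2 : ((1 : B) ⊗ₜ[R] u) ⊗ₜ[B] of p e (algebraMap R B c) =
      (0 : (B ⊗[R] P) ⊗[B] Fstar p e B) := by
    rw [← h1, hu, map_zero]
  exact local_pure (algebraMap R B c) hc (B ⊗[R] P) _ h2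

theorem isPure_lam (c : R)
    (hreg : ∀ (q : Ideal R) [q.IsPrime], IsRegularLocalRing (Localization.AtPrime q))
    (hc : ∀ (q : Ideal R) [q.IsPrime], algebraMap R (Localization.AtPrime q) c ∉
      fpow (p ^ e) (maximalIdeal (Localization.AtPrime q))) :
    IsPure (lam p e c) := by
  intro P _ _
  rw [← LinearMap.ker_eq_bot, LinearMap.ker_eq_bot']
  intro z hz
  obtain ⟨u, rfl⟩ := (TensorProduct.lid R P).symm.surjective z
  rw [TensorProduct.lid_symm_apply] at hz ⊢
  rw [LinearMap.rTensor_tmul] at hz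
  have h0 : lam p e c 1 = of p e c := by
    show of p e (c * 1 ^ p ^ e) = _
    rw [one_pow, mul_one]
  rw [h0] at hz
  have hz' : u ⊗ₜ[R] of p e c = (0 : P ⊗[R] Fstar p e R) := by
    have := congrArg (TensorProduct.comm R (Fstar p e R) P) hz
    rwa [TensorProduct.comm_tmul, map_zero] at this
  suffices hu : u = 0 by rw [hu, tmul_zero]
  -- reduction to a finitely generated module
  set P₀ : Submodule R P := Submodule.span R {u} with hP₀
  have hfg : P₀.FG := Submodule.fg_span_singleton u
  set u₀ : P₀ := ⟨u, Submodule.mem_span_singleton_self u⟩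
  obtain ⟨Q, hPQ, hQ, hQ0⟩ := TensorProduct.eq_zero_of_fg_of_subtype_eq_zero hfg
    (t := u₀ ⊗ₜ[R] of p e c) (by rw [LinearMap.rTensor_tmul]; exact hz')
  rw [LinearMap.rTensor_tmul] at hQ0
  set v : Q := Submodule.inclusion hPQ u₀ with hv
  have hvu : (v : P) = u := rfl
  have : Module.Finite R Q := Module.Finite.iff_fg.2 hQ
  by_contra hne
  have hvne : v ≠ 0 := by
    intro h
    apply hne
    rw [← hvu, h]
    rfl
  have hann : Ideal.span {r : R | r • v = 0} ≠ ⊤ := by
    have h1 : Ideal.span {r : R | r • v = 0} ≤ LinearMap.ker (LinearMap.toSpanSingleton R Q v) := by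
      rw [Ideal.span_le]
      intro r hr
      exact hr
    intro htop
    rw [htop] at h1
    have h2 : (1 : R) • v = 0 := h1 (Submodule.mem_top (x := (1 : R)))
    rw [one_smul] at h2
    exact hvne h2
  obtain ⟨q, hq, hle⟩ := Ideal.exists_le_maximal _ hann
  have hqp := hq.isPrime
  have := hreg q
  have hchar : CharP (Localization.AtPrime q) p :=
    charP_of_algebra p R _ (algebraMap R (Localization.AtPrime q))
  have h3 := loc_step q c (hc q) Q v hQ0
  have h4 : IsLocalizedModule q.primeCompl (TensorProduct.mk R (Localization.AtPrime q) Q 1) :=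
    (isLocalizedModule_iff_isBaseChange q.primeCompl (Localization.AtPrime q) _).2
      (TensorProduct.isBaseChange R Q (Localization.AtPrime q))
  have h5 : TensorProduct.mk R (Localization.AtPrime q) Q 1 v = 0 := h3
  obtain ⟨s, hs⟩ := (IsLocalizedModule.eq_zero_iff q.primeCompl _).1 h5
  exact s.2 (hle (Ideal.subset_span hs))

end

end Pool.Agent.T9h72.FP
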