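import Mathlib
import Pool.Agent.T9h72.FP.Glob

/-! A uniform bound for Frobenius powers of the maximal ideals not containing a given element. -/

set_option autoImplicit false

namespace Pool.Agent.T9h72.FP

open IsLocalRing

universe u

theorem dim_pos_of_mem {B : Type*} [CommRing B] [IsRegularLocalRing B] (x : B)
    (hx : x ∈ maximalIdeal B) (hx2 : x ∉ maximalIdeal B ^ 2) :
    ∃ d : ℕ, ringKrullDim B = (d + 1 : ℕ) := by
  obtain ⟨d, hd⟩ := H379R3.exists_dim_eq (B := B)
  rcases Nat.eq_zero_or_pos d with rfl | hd0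
  · have h1 := H379R3.dim_zero_maximalIdeal_eq_bot hd
    rw [h1] at hx
    rw [Ideal.mem_bot.1 hx] at hx2
    exact absurd (Ideal.zero_mem _) hx2
  · obtain ⟨d', rfl⟩ := Nat.exists_eq_succ_of_ne_zero hd0.ne'
    exact ⟨d', hd⟩

theorem regular_quot' {B : Type*} [CommRing B] [IsRegularLocalRing B] (x : B)
    (hx : x ∈ maximalIdeal B) (hx2 : x ∉ maximalIdeal B ^ 2) :
    IsRegularLocalRing (B ⧸ Ideal.span {x}) := by
  obtain ⟨d, hd⟩ := dim_pos_of_mem x hx hx2
  exact (H379R3.regular_quotient x hx hx2 d hd).1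

/-- the local step -/
theorem step_local {p e : ℕ} [Fact p.Prime] {B : Type*} [CommRing B] [IsRegularLocalRing B]
    [CharP B p] (x : B) (hx : x ∈ maximalIdeal B) (hx2 : x ∉ maximalIdeal B ^ 2) (a : ℕ)
    (ha : a < p ^ e) (c : B) (hc : x ^ a * c ∈ fpow (p ^ e) (maximalIdeal B)) :
    c ∈ Ideal.span {x} ⊔ fpow (p ^ e) (maximalIdeal B) := by
  obtain ⟨m, z, hz, hmax⟩ := exists_ind x hx hx2
  have h1 : maximalIdeal B = Ideal.span (Set.range (Fin.cons x z : Fin (m + 1) → B)) := by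
    rw [hmax, Fin.range_cons, Ideal.span_insert]
  have h2 : x ^ a * c ∈ Ideal.span {x ^ p ^ e} ⊔ Ideal.span (Set.range fun i => z i ^ p ^ e) := by
    rw [h1] at hc
    have h3 := fpow_le_span_pow _ hc
    have h4 : (Set.range fun i => (Fin.cons x z : Fin (m + 1) → B) i ^ p ^ e) =
        insert (x ^ p ^ e) (Set.range fun i => z i ^ p ^ e) := by
      ext y
      constructor
      · rintro ⟨i, rfl⟩
        refine Fin.cases ?_ (fun j => ?_) i
        · left; rfl
        · right; exact ⟨j, rfl⟩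
      · rintro (rfl | ⟨j, rfl⟩)
        · exact ⟨0, rfl⟩
        · exact ⟨j.succ, rfl⟩
    rw [h4, Ideal.span_insert] at h3
    exact h3
  obtain ⟨w, hw, s, hs, hws⟩ := Submodule.mem_sup.1 h2
  obtain ⟨b, rfl⟩ := Ideal.mem_span_singleton'.1 hw
  have h5 : x ^ a * (c - b * x ^ (p ^ e - a)) = s := by
    have h6 : x ^ p ^ e = x ^ a * x ^ (p ^ e - a) := by
      rw [← pow_add, Nat.add_sub_cancel' ha.le]
    have h7 : x ^ a * (c - b * x ^ (p ^ e - a)) = x ^ a * c - b * x ^ p ^ e := by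
      rw [h6]; ring
    rw [h7, ← hws]
    ring
  have key : ∀ n : ℕ, ∀ s : B, x ^ n * s ∈ Ideal.span (Set.range fun i => z i ^ p ^ e) →
      s ∈ Ideal.span (Set.range fun i => z i ^ p ^ e) := by
    intro n
    induction n with
    | zero => intro s hs; simpa using hs
    | succ n ihn =>
      intro s hs
      apply ihn
      apply regular_mod _ B x z hz (fun _ => p ^ e)
      rw [← mul_assoc, ← pow_succ']
      exact hs
  have h8 := key a (c - b * x ^ (p ^ e - a)) (by rw [h5]; exact hs)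
  have h9 : c = b * x ^ (p ^ e - a) + (c - b * x ^ (p ^ e - a)) := by ring
  rw [h9]
  refine Ideal.add_mem _ (Ideal.mem_sup_left ?_) (Ideal.mem_sup_right ?_)
  · apply Ideal.mul_mem_left
    rw [Ideal.mem_span_singleton]
    exact dvd_pow_self _ (by omega)
  · have h10 := span_pow_le_fpow (p ^ e) z h8
    refine Ideal.span_mono (Set.image_mono ?_) h10
    rw [hmax]
    exact fun y hy => Ideal.mem_sup_right hy

/-- `R_q / I R_q` -/
abbrev DQ {R : Type u} [CommRing R] (I q : Ideal R) [q.IsPrime] : Type u :=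
  Localization.AtPrime q ⧸ I.map (algebraMap R (Localization.AtPrime q))

section
variable {R : Type u} [CommRing R]

/-- the map `R → R_q / I R_q` -/
noncomputable def ph (I q : Ideal R) [q.IsPrime] : R →+* DQ I q :=
  (Ideal.Quotient.mk _).comp (algebraMap R (Localization.AtPrime q))

theorem ph_unit (I q : Ideal R) [q.IsPrime] {s : R} (hs : s ∉ q) : IsUnit (ph I q s) :=
  (IsLocalization.map_units (Localization.AtPrime q) (⟨s, hs⟩ : q.primeCompl)).map
    (Ideal.Quotient.mk (I.map (algebraMap R (Localization.AtPrime q))))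

theorem ph_surj (I q : Ideal R) [q.IsPrime] (z : DQ I q) : ∃ s ∉ q, ∃ r, ph I q s * z = ph I q r := by
  obtain ⟨y, rfl⟩ := Ideal.Quotient.mk_surjective z
  obtain ⟨⟨r, s⟩, hrs⟩ := IsLocalization.surj q.primeCompl y
  refine ⟨s, s.2, r, ?_⟩
  show Ideal.Quotient.mk _ (algebraMap R _ (s : R)) * Ideal.Quotient.mk _ y =
    Ideal.Quotient.mk _ (algebraMap R _ r)
  rw [← map_mul, mul_comm, hrs]

theorem ph_mem_map (I q : Ideal R) [q.IsPrime] (A : Ideal R) (r : R) :
    ph I q r ∈ A.map (ph I q) ↔ ∃ s ∉ q, s * r ∈ A ⊔ I := by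
  have h1 : A.map (ph I q) = (A.map (algebraMap R (Localization.AtPrime q))).map
      (Ideal.Quotient.mk _) := by
    rw [Ideal.map_map]; rfl
  rw [h1]
  show Ideal.Quotient.mk _ (algebraMap R (Localization.AtPrime q) r) ∈ _ ↔ _
  rw [Ideal.mem_quotient_iff_mem_sup, ← Ideal.map_sup,
    IsLocalization.algebraMap_mem_map_algebraMap_iff q.primeCompl]
  constructor
  · rintro ⟨s, hs, h⟩
    exact ⟨s, hs, h⟩
  · rintro ⟨s, hs, h⟩
    exact ⟨s, hs, h⟩

theorem ph_eq_zero (I q : Ideal R) [q.IsPrime] (r : R) :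
    ph I q r = 0 ↔ ∃ s ∉ q, s * r ∈ I := by
  have := ph_mem_map I q ⊥ r
  rw [Ideal.map_bot, Ideal.mem_bot, bot_sup_eq] at this
  exact this

theorem ph_maximalIdeal (I q : Ideal R) [q.IsPrime] [IsLocalRing (DQ I q)] :
    maximalIdeal (DQ I q) = q.map (ph I q) := by
  have h1 : q.map (ph I q) = (q.map (algebraMap R (Localization.AtPrime q))).map
      (Ideal.Quotient.mk _) := by
    rw [Ideal.map_map]; rfl
  rw [h1, Localization.AtPrime.map_eq_maximalIdeal]
  exact (H379R3.map_mk_maximalIdeal _).symm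

theorem ph_mem_max (I q : Ideal R) [q.IsPrime] [IsLocalRing (DQ I q)] (r : R) :
    ph I q r ∈ maximalIdeal (DQ I q) ↔ r ∈ q := by
  constructor
  · intro h
    by_contra hr
    exact (mem_maximalIdeal _).1 h (ph_unit I q hr)
  · intro h
    rw [ph_maximalIdeal]
    exact Ideal.mem_map_of_mem _ h

theorem fpow_mono {q : ℕ} {I J : Ideal R} (h : I ≤ J) : fpow q I ≤ fpow q J :=
  Ideal.span_mono (Set.image_mono h)

theorem map_fpow {S : Type*} [CommRing S] (f : R →+* S) (hf : Function.Surjective f) (q : ℕ)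
    (I : Ideal R) : (fpow q I).map f = fpow q (I.map f) := by
  rw [fpow, Ideal.map_span, ← Set.image_comp, fpow]
  congr 1
  ext y
  constructor
  · rintro ⟨a, ha, rfl⟩
    exact ⟨f a, Ideal.mem_map_of_mem _ ha, by simp⟩
  · rintro ⟨b, hb, rfl⟩
    obtain ⟨a, ha, rfl⟩ := (Ideal.mem_map_iff_of_surjective f hf).1 hb
    exact ⟨a, ha, by simp⟩

theorem fpow_le_self {q : ℕ} (hq : q ≠ 0) (I : Ideal R) : fpow q I ≤ I := by
  rw [fpow, Ideal.span_le]
  rintro _ ⟨a, ha, rfl⟩
  exact Ideal.pow_mem_of_mem _ ha q (Nat.pos_of_ne_zero hq)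

/-- membership in `I R_q + m^[q]` seen in the quotient -/
theorem ph_mem_fpow (I q : Ideal R) [q.IsPrime] [IsLocalRing (DQ I q)] (n : ℕ) (r : R) :
    ph I q r ∈ fpow n (maximalIdeal (DQ I q)) ↔
      algebraMap R (Localization.AtPrime q) r ∈
        I.map (algebraMap R (Localization.AtPrime q)) ⊔
          fpow n (maximalIdeal (Localization.AtPrime q)) := by
  rw [← H379R3.map_mk_maximalIdeal, ← map_fpow _ Ideal.Quotient.mk_surjective, sup_comm]
  exact Ideal.mem_quotient_iff_mem_sup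

end

end Pool.Agent.T9h72.FP
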