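import Mathlib
import Pool.Agent.T9h72.FP.Ord

/-! A parameter at `P` stays a parameter in a neighbourhood of `P` in `V(P)`. -/

set_option autoImplicit false

namespace Pool.Agent.T9h72.FP

open IsLocalRing

universe u

variable {R : Type u} [CommRing R]

/-- common denominators -/
theorem exists_common (P A : Ideal R) [P.IsPrime] (hP : P.FG) (h : ∀ r ∈ P, ∃ s ∉ P, s * r ∈ A) :
    ∃ s ∉ P, ∀ r ∈ P, s * r ∈ A := by
  classical
  obtain ⟨G, hG⟩ := hP
  have h1 : ∀ T : Finset R, T ⊆ G → ∃ s ∉ P, ∀ r ∈ T, s * r ∈ A := by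
    intro T
    induction T using Finset.induction with
    | empty => intro _; exact ⟨1, fun h1 => (Ideal.IsPrime.ne_top ‹_›)
        ((Ideal.eq_top_iff_one _).2 h1), by simp⟩
    | insert a T _ ih =>
      intro hT
      obtain ⟨s, hs, hsT⟩ := ih fun x hx => hT (Finset.mem_insert_of_mem hx)
      obtain ⟨t, ht, hta⟩ := h a (by
        rw [← hG]; exact Ideal.subset_span (hT (Finset.mem_insert_self _ _)))
      refine ⟨s * t, fun h2 => (Ideal.IsPrime.mem_or_mem ‹_› h2).elim hs ht, fun r hr => ?_⟩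
      rcases Finset.mem_insert.1 hr with rfl | hr
      · rw [mul_assoc]; exact Ideal.mul_mem_left _ _ hta
      · rw [mul_right_comm]; exact Ideal.mul_mem_right _ _ (hsT r hr)
  obtain ⟨s, hs, hsG⟩ := h1 G subset_rfl
  refine ⟨s, hs, fun r hr => ?_⟩
  have h2 : P ≤ Submodule.comap (LinearMap.mulLeft R s) A := by
    rw [← hG]
    exact Submodule.span_le.2 fun r hr => hsG r hr
  exact h2 hr

/-- a regular local ring whose maximal ideal is generated by `d - 1` elements has dimension
less than `d` -/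
theorem dim_le_of_span {B : Type*} [CommRing B] [IsRegularLocalRing B] {d : ℕ}
    (hd : ringKrullDim B = (d : ℕ)) (s : Set B) (hs : s.Finite)
    (h : maximalIdeal B = Ideal.span s) : d ≤ s.ncard := by
  have h1 := (isRegularLocalRing_iff B).1 inferInstance
  rw [hd] at h1
  have h2 : (maximalIdeal B).spanFinrank = d := by exact_mod_cast h1
  rw [← h2, h]
  exact Submodule.spanFinrank_span_le_ncard_of_finite hs

theorem open_param [IsNoetherianRing R] (I P : Ideal R) [P.IsPrime] (hIP : I ≤ P) (g : R)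
    (H1 : ∀ (q : Ideal R) [q.IsPrime], P ≤ q → g ∉ q → IsRegularLocalRing (DQ I q))
    (H2 : ∀ (q : Ideal R) [q.IsPrime], P ≤ q → g ∉ q → IsRegularLocalRing (DQ P q))
    (hg : g ∉ P) (x : R) (hx : x ∈ P)
    (hx2 : ∀ _ : IsLocalRing (DQ I P), ph I P x ∉ maximalIdeal (DQ I P) ^ 2) :
    ∃ f ∉ P, ∀ (q : Ideal R) [q.IsPrime] [IsLocalRing (DQ I q)], P ≤ q → g ∉ q → f ∉ q →
      ph I q x ∉ maximalIdeal (DQ I q) ^ 2 := by
  classical
  have hregP : IsRegularLocalRing (DQ I P) := H1 P le_rfl hg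
  obtain ⟨d, z, i₀, hd, hz, hi₀⟩ := H379R3.exists_param_of_mem (ph I P x)
    ((ph_mem_max I P x).2 hx) (hx2 inferInstance)
  -- numerators
  have hnum : ∀ i, ∃ s ∉ P, ∃ r, ph I P s * z i = ph I P r ∧ (i = i₀ → r = x) := by
    intro i
    by_cases hi : i = i₀
    · subst hi
      refine ⟨1, fun h1 => (Ideal.IsPrime.ne_top ‹_›) ((Ideal.eq_top_iff_one _).2 h1), x, ?_,
        fun _ => rfl⟩
      rw [map_one, one_mul, hi₀]
    · obtain ⟨s, hs, r, hr⟩ := ph_surj I P (z i)
      exact ⟨s, hs, r, hr, fun h => absurd h hi⟩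
  choose s hs y hy hyx using hnum
  have hspan : ∀ (S : Set (Fin d)), Ideal.span (z '' S) = Ideal.span ((fun i => ph I P (y i)) '' S) := by
    intro S
    apply le_antisymm
    · rw [Ideal.span_le]
      rintro _ ⟨i, hi, rfl⟩
      have h1 : ph I P (s i) * z i ∈ Ideal.span ((fun i => ph I P (y i)) '' S) := by
        rw [hy]
        exact Ideal.subset_span ⟨i, hi, rfl⟩
      exact (Ideal.unit_mul_mem_iff_mem _ (ph_unit I P (hs i))).1 h1
    · rw [Ideal.span_le]
      rintro _ ⟨i, hi, rfl⟩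
      show ph I P (y i) ∈ _
      rw [← hy]
      exact Ideal.mul_mem_left _ _ (Ideal.subset_span ⟨i, hi, rfl⟩)
  have hmax : maximalIdeal (DQ I P) = (Ideal.span (Set.range y)).map (ph I P) := by
    rw [← hz, ← Set.image_univ, hspan, Ideal.map_span, ← Set.range_comp, Set.image_univ]
    rfl
  -- `f₁ P ⊆ (y) + I`
  obtain ⟨f, hf, hfP⟩ := exists_common P (Ideal.span (Set.range y) ⊔ I)
    (Ideal.fg_of_isNoetherianRing P) (by
      intro r hr
      have h1 : ph I P r ∈ (Ideal.span (Set.range y)).map (ph I P) := by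
        rw [← hmax]
        exact (ph_mem_max I P r).2 hr
      exact (ph_mem_map I P _ r).1 h1)
  refine ⟨f, hf, ?_⟩
  intro q _ _ hPq hgq hfq hsq
  have hreg : IsRegularLocalRing (DQ I q) := H1 q hPq hgq
  have hreg2 : IsRegularLocalRing (DQ P q) := H2 q hPq hgq
  set K : Ideal (DQ I q) := P.map (ph I q) with hK
  have hle : I.map (algebraMap R (Localization.AtPrime q)) ≤
      P.map (algebraMap R (Localization.AtPrime q)) := Ideal.map_mono hIP
  have hKeq : K = (P.map (algebraMap R (Localization.AtPrime q))).map (Ideal.Quotient.mk _) := by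
    rw [hK, Ideal.map_map]; rfl
  have hregK : IsRegularLocalRing (DQ I q ⧸ K) := by
    rw [hKeq]
    exact IsRegularLocalRing.of_ringEquiv (DoubleQuot.quotQuotEquivQuotOfLE hle).symm
  have hxK : ph I q x ∈ K := Ideal.mem_map_of_mem _ hx
  have h1 : ph I q x ∈ maximalIdeal (DQ I q) * K := H379R3.inf_sq_le K ⟨hxK, hsq⟩
  -- `K` is generated by the `y i`
  have hKy : K ≤ (Ideal.span (Set.range y)).map (ph I q) := by
    rw [hK, Ideal.map_le_iff_le_comap]
    intro r hr
    rw [Ideal.mem_comap, ph_mem_map]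
    exact ⟨f, hfq, hfP r hr⟩
  set A' : Ideal R := Ideal.span (y '' {i | i ≠ i₀}) with hA'
  have hyx' : y i₀ = x := hyx i₀ rfl
  have hsplit : Ideal.span (Set.range y) = Ideal.span {x} ⊔ A' := by
    rw [hA', ← Ideal.span_union]
    congr 1
    ext t
    constructor
    · rintro ⟨i, rfl⟩
      by_cases hi : i = i₀
      · left; rw [hi, hyx']; rfl
      · right; exact ⟨i, hi, rfl⟩
    · rintro (rfl | ⟨i, _, rfl⟩)
      · exact ⟨i₀, hyx'⟩
      · exact ⟨i, rfl⟩
  have hNak : K ≤ A'.map (ph I q) := by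
    apply Submodule.le_of_le_smul_of_le_jacobson_bot (I := maximalIdeal (DQ I q))
      (Ideal.fg_of_isNoetherianRing K) (IsLocalRing.maximalIdeal_le_jacobson _)
    refine hKy.trans ?_
    rw [hsplit, Ideal.map_sup, Ideal.map_span, Set.image_singleton]
    apply sup_le
    · rw [Ideal.span_singleton_le_iff_mem]
      exact Ideal.mem_sup_right h1
    · exact le_sup_left
  -- back to `P`
  have hPA : maximalIdeal (DQ I P) = Ideal.span (z '' {i | i ≠ i₀}) := by
    apply le_antisymm
    · rw [ph_maximalIdeal, Ideal.map_le_iff_le_comap]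
      intro r hr
      rw [Ideal.mem_comap]
      have h2 : ph I q r ∈ A'.map (ph I q) := hNak (Ideal.mem_map_of_mem _ hr)
      obtain ⟨t, ht, htr⟩ := (ph_mem_map I q A' r).1 h2
      have h3 : ph I P r ∈ A'.map (ph I P) :=
        (ph_mem_map I P A' r).2 ⟨t, fun h => ht (hPq h), htr⟩
      rw [hspan]
      rwa [hA', Ideal.map_span, ← Set.image_comp] at h3
    · rw [← hz]
      apply Ideal.span_mono
      rintro _ ⟨i, _, rfl⟩
      exact ⟨i, rfl⟩
  have h4 := dim_le_of_span hd _ (Set.toFinite _) hPA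
  have h5 : (z '' {i | i ≠ i₀}).ncard ≤ d - 1 := by
    refine (Set.ncard_image_le (Set.toFinite _)).trans ?_
    have : ({i | i ≠ i₀} : Set (Fin d)) = ((Finset.univ.erase i₀ : Finset (Fin d)) :
        Set (Fin d)) := by
      ext i; simp
    rw [this, Set.ncard_coe_finset, Finset.card_erase_of_mem (Finset.mem_univ _)]
    simp
  have h6 : 0 < d := i₀.pos
  omega

end Pool.Agent.T9h72.FP
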