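import Mathlib
import Pool.Agent.T9h72.FP.Open

/-! Uniform bounds. -/

set_option autoImplicit false

namespace Pool.Agent.T9h72.FP

open IsLocalRing

universe u

variable {R : Type u} [CommRing R]

theorem one_not_mem_prime (q : Ideal R) [hq : q.IsPrime] : (1 : R) ∉ q := fun h1 =>
  hq.ne_top ((Ideal.eq_top_iff_one _).2 h1)

theorem mul_not_mem {q : Ideal R} [hq : q.IsPrime] {a b : R} (ha : a ∉ q) (hb : b ∉ q) :
    a * b ∉ q := fun h => (hq.mem_or_mem h).elim ha hb

theorem bound (p : ℕ) [Fact p.Prime] [IsNoetherianRing R] [CharP R p] (P : Ideal R) [P.IsPrime]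
    (h : ℕ) : ∀ (I : Ideal R), I ≤ P → ∀ g ∉ P,
      (∀ (q : Ideal R) [q.IsPrime], P ≤ q → g ∉ q → IsRegularLocalRing (DQ I q)) →
      (∀ (q : Ideal R) [q.IsPrime], P ≤ q → g ∉ q → IsRegularLocalRing (DQ P q)) →
      ringKrullDim (DQ I P) = (h : ℕ) → ∀ c : R, ph I P c ≠ 0 →
      ∃ f ∉ P, ∃ N : ℕ, ∀ e ≥ N, ∀ (q : Ideal R) [q.IsPrime] [IsLocalRing (DQ I q)], P ≤ q →
        f ∉ q → ph I q c ∉ fpow (p ^ e) (maximalIdeal (DQ I q)) := by
  induction h with
  | zero =>
    intro I hI g hg H1 H2 hdim c hc
    have hreg := H1 P le_rfl hg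
    have hcP : c ∉ P := by
      intro hcP
      have h1 := (ph_mem_max I P c).2 hcP
      rw [H379R3.dim_zero_maximalIdeal_eq_bot hdim] at h1
      exact hc (Ideal.mem_bot.1 h1)
    refine ⟨c, hcP, 0, ?_⟩
    intro e _ q _ _ hPq hcq hmem
    have hp : p ^ e ≠ 0 := pow_ne_zero _ (Nat.Prime.ne_zero Fact.out)
    exact hcq ((ph_mem_max I q c).1 (fpow_le_self hp _ hmem))
  | succ h ih =>
    intro I hI g hg H1 H2 hdim c hc
    have hreg := H1 P le_rfl hg
    have hdom := H379R3.isDomain (DQ I P)
    -- the parameter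
    have hx : ∃ x ∈ P, ph I P x ∉ maximalIdeal (DQ I P) ^ 2 := by
      by_contra hcon
      push Not at hcon
      have h1 : maximalIdeal (DQ I P) ≤ maximalIdeal (DQ I P) ^ 2 := by
        conv_lhs => rw [ph_maximalIdeal]
        rw [Ideal.map_le_iff_le_comap]
        exact fun r hr => hcon r hr
      have h2 : maximalIdeal (DQ I P) = ⊥ := by
        apply Submodule.eq_bot_of_le_smul_of_le_jacobson_bot (maximalIdeal (DQ I P))
          (maximalIdeal (DQ I P)) (maximalIdeal (DQ I P)).fg_of_isNoetherianRing
        · rw [smul_eq_mul, ← pow_two]; exact h1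
        · exact IsLocalRing.maximalIdeal_le_jacobson _
      have h3 : IsField (DQ I P) := isField_iff_maximalIdeal_eq.2 h2
      have h4 := ringKrullDim_eq_zero_of_isField h3
      rw [hdim] at h4
      have h5 : h + 1 = 0 := by exact_mod_cast h4
      omega
    obtain ⟨x, hxP, hx2⟩ := hx
    obtain ⟨f₁, hf₁, hopen⟩ := open_param I P hI g H1 H2 hg x hxP (fun _ => hx2)
    -- the order of `c` along `x`
    have hxu : ¬ IsUnit (ph I P x) := (mem_maximalIdeal _).1 ((ph_mem_max I P x).2 hxP)
    obtain ⟨γ, hγ, hxγ⟩ :=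
      (FiniteMultiplicity.of_not_isUnit hxu hc).exists_eq_pow_mul_and_not_dvd
    set a := multiplicity (ph I P x) (ph I P c) with ha
    obtain ⟨s, hs, r, hr⟩ := ph_surj I P γ
    have h0 : ph I P (s * c - x ^ a * r) = 0 := by
      rw [map_sub, map_mul, map_mul, map_pow, ← hr]
      conv_lhs => rw [hγ]
      ring
    obtain ⟨t, ht, htI⟩ := (ph_eq_zero I P _).1 h0
    set c' := t * r with hc'
    set s' := t * s with hs'
    have hsP : s' ∉ P := mul_not_mem ht hs
    have hrel : s' * c - x ^ a * c' ∈ I := by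
      have : s' * c - x ^ a * c' = t * (s * c - x ^ a * r) := by rw [hc', hs']; ring
      rw [this]; exact htI
    set I' := I ⊔ Ideal.span {x} with hI'
    have hIP' : I' ≤ P := sup_le hI (by rw [Ideal.span_singleton_le_iff_mem]; exact hxP)
    -- quotients
    have hequiv : ∀ (q : Ideal R) [q.IsPrime],
        Nonempty ((DQ I q ⧸ Ideal.span {ph I q x}) ≃+* DQ I' q) := by
      intro q _
      have e1 := DoubleQuot.quotQuotEquivQuotSup
        (I.map (algebraMap R (Localization.AtPrime q)))
        ((Ideal.span {x}).map (algebraMap R (Localization.AtPrime q)))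
      have h2 : ((Ideal.span {x}).map (algebraMap R (Localization.AtPrime q))).map
          (Ideal.Quotient.mk (I.map (algebraMap R (Localization.AtPrime q)))) =
          Ideal.span {ph I q x} := by
        rw [Ideal.map_span, Set.image_singleton, Ideal.map_span, Set.image_singleton]
        rfl
      have h3 : I.map (algebraMap R (Localization.AtPrime q)) ⊔
          (Ideal.span {x}).map (algebraMap R (Localization.AtPrime q)) =
          I'.map (algebraMap R (Localization.AtPrime q)) := by
        rw [hI', Ideal.map_sup]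
      exact ⟨(Ideal.quotEquivOfEq h2).symm.trans (e1.trans (Ideal.quotEquivOfEq h3))⟩
    have hphc : ph I' P c' ≠ 0 := by
      intro hzero
      obtain ⟨w, hw, hwI⟩ := (ph_eq_zero I' P c').1 hzero
      rw [hI', sup_comm] at hwI
      have h2 : ph I P c' ∈ (Ideal.span {x}).map (ph I P) :=
        (ph_mem_map I P _ _).2 ⟨w, hw, hwI⟩
      rw [Ideal.map_span, Set.image_singleton, Ideal.mem_span_singleton] at h2
      rw [hc', map_mul, ← hr] at h2
      have h3 : ph I P x ∣ γ := by
        have u1 := ph_unit I P ht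
        have u2 := ph_unit I P hs
        exact (u2.dvd_mul_left).1 ((u1.dvd_mul_left).1 h2)
      exact hxγ h3
    have H1' : ∀ (q : Ideal R) [q.IsPrime], P ≤ q → g * f₁ ∉ q → IsRegularLocalRing (DQ I' q) := by
      intro q hqp hPq hgf
      have hgq : g ∉ q := fun h => hgf (Ideal.mul_mem_right _ _ h)
      have hfq : f₁ ∉ q := fun h => hgf (Ideal.mul_mem_left _ _ h)
      have h1 := H1 q hPq hgq
      have h2 := hopen q hPq hgq hfq
      have h3 := regular_quot' (ph I q x) ((ph_mem_max I q x).2 (hPq hxP)) h2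
      obtain ⟨e⟩ := hequiv q
      exact IsRegularLocalRing.of_ringEquiv (R := DQ I q ⧸ Ideal.span {ph I q x}) e
    have H2' : ∀ (q : Ideal R) [q.IsPrime], P ≤ q → g * f₁ ∉ q → IsRegularLocalRing (DQ P q) := by
      intro q hqp hPq hgf
      exact H2 q hPq fun h => hgf (Ideal.mul_mem_right _ _ h)
    have hdim' : ringKrullDim (DQ I' P) = (h : ℕ) := by
      obtain ⟨e⟩ := hequiv P
      rw [← ringKrullDim_eq_of_ringEquiv (R := DQ I P ⧸ Ideal.span {ph I P x}) e]
      exact (H379R3.regular_quotient (ph I P x) ((ph_mem_max I P x).2 hxP) hx2 h hdim).2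
    obtain ⟨f', hf', N', hN'⟩ := ih I' hIP' (g * f₁) (mul_not_mem hg hf₁) H1' H2' hdim' c' hphc
    refine ⟨g * f₁ * (s' * f'), mul_not_mem (mul_not_mem hg hf₁) (mul_not_mem hsP hf'),
      max N' a, ?_⟩
    intro e he q hqp hlocq hPq hfq hmem
    have hgf : g * f₁ ∉ q := fun h => hfq (Ideal.mul_mem_right _ _ h)
    have hsf : s' * f' ∉ q := fun h => hfq (Ideal.mul_mem_left _ _ h)
    have hgq : g ∉ q := fun h => hgf (Ideal.mul_mem_right _ _ h)
    have hfq1 : f₁ ∉ q := fun h => hgf (Ideal.mul_mem_left _ _ h)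
    have hsq : s' ∉ q := fun h => hsf (Ideal.mul_mem_right _ _ h)
    have hfq' : f' ∉ q := fun h => hsf (Ideal.mul_mem_left _ _ h)
    have hregq := H1 q hPq hgq
    have hregq' := H1' q hPq hgf
    have hcharq : CharP (DQ I q) p := charP_of_algebra p R _ (ph I q)
    have hrel' : ph I q s' * ph I q c = ph I q x ^ a * ph I q c' := by
      have h1 : ph I q (s' * c - x ^ a * c') = 0 :=
        (ph_eq_zero I q _).2 ⟨1, one_not_mem_prime q, by rw [one_mul]; exact hrel⟩
      rw [map_sub, map_mul _ s' c, map_mul _ (x ^ a) c', map_pow, sub_eq_zero] at h1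
      exact h1
    have hlt : a < p ^ e := by
      have h1 : a ≤ e := le_trans (le_max_right _ _) he
      have h2 : e < p ^ e := Nat.lt_pow_self (Nat.Prime.one_lt Fact.out)
      omega
    have h2 : ph I q x ^ a * ph I q c' ∈ fpow (p ^ e) (maximalIdeal (DQ I q)) := by
      rw [← hrel']
      exact Ideal.mul_mem_left _ _ hmem
    have h3 := step_local (p := p) (e := e) (ph I q x) ((ph_mem_max I q x).2 (hPq hxP))
      (hopen q hPq hgq hfq1) a hlt _ h2
    apply hN' e (le_trans (le_max_left _ _) he) q hPq hfq'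
    rw [ph_mem_fpow]
    -- transport
    have h4 : (Ideal.Quotient.mk (I.map (algebraMap R (Localization.AtPrime q))))
        (algebraMap R (Localization.AtPrime q) c') ∈
        ((Ideal.span {x}).map (algebraMap R (Localization.AtPrime q)) ⊔
          fpow (p ^ e) (maximalIdeal (Localization.AtPrime q))).map
          (Ideal.Quotient.mk (I.map (algebraMap R (Localization.AtPrime q)))) := by
      rw [Ideal.map_sup, map_fpow _ Ideal.Quotient.mk_surjective, H379R3.map_mk_maximalIdeal,
        Ideal.map_span, Set.image_singleton, Ideal.map_span, Set.image_singleton]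
      exact h3
    rw [Ideal.mem_quotient_iff_mem_sup] at h4
    rw [hI', Ideal.map_sup, sup_comm (I.map _), sup_assoc, sup_comm (I.map _), ← sup_assoc]
    exact h4

/-- **Uniform bound.** Let `R` be a regular ring of characteristic `p` such that for every prime
`P` the regular locus of `R ⧸ P` contains a nonempty open set. If `c` is outside all minimal
primes, then for large `e` it is outside the Frobenius powers of all maximal ideals `q R_q`. -/
theorem uniform (p : ℕ) [Fact p.Prime] [CharP R p] [IsRegularRing R]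
    (hJ : ∀ (P : Ideal R) [P.IsPrime], ∃ g ∉ P, ∀ (q : Ideal R) [q.IsPrime], P ≤ q → g ∉ q →
      IsRegularLocalRing (DQ P q)) (c : R) (hc : ∀ P ∈ minimalPrimes R, c ∉ P) :
    ∃ N : ℕ, ∀ e ≥ N, ∀ (q : Ideal R) [q.IsPrime], algebraMap R (Localization.AtPrime q) c ∉
      fpow (p ^ e) (maximalIdeal (Localization.AtPrime q)) := by
  have hnoeth : IsNoetherianRing R := inferInstance
  have key : ∀ J : Ideal R, ∃ N : ℕ, ∀ e ≥ N, ∀ (q : Ideal R) [q.IsPrime], J ≤ q →
      algebraMap R (Localization.AtPrime q) c ∉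
        fpow (p ^ e) (maximalIdeal (Localization.AtPrime q)) := by
    refine IsNoetherian.induction (R := R) (M := R) ?_
    · intro (J : Ideal R) ih
      by_cases hJp : J.IsPrime
      · -- the generic point
        obtain ⟨g, hg, hreg⟩ := hJ J
        have hbot : ∀ (q : Ideal R) [q.IsPrime],
            Nonempty (Localization.AtPrime q ≃+* DQ (⊥ : Ideal R) q) := by
          intro q _
          have h1 : (⊥ : Ideal R).map (algebraMap R (Localization.AtPrime q)) = ⊥ :=
            Ideal.map_bot
          exact ⟨(RingEquiv.quotientBot _).symm.trans (Ideal.quotEquivOfEq h1.symm)⟩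
        have H1 : ∀ (q : Ideal R) [q.IsPrime], J ≤ q → g ∉ q →
            IsRegularLocalRing (DQ (⊥ : Ideal R) q) := by
          intro q _ _ _
          obtain ⟨e⟩ := hbot q
          exact IsRegularLocalRing.of_ringEquiv e
        have hloc : ∀ (q : Ideal R) [q.IsPrime], IsRegularLocalRing (DQ (⊥ : Ideal R) q) := by
          intro q _
          obtain ⟨e⟩ := hbot q
          exact IsRegularLocalRing.of_ringEquiv e
        have := hloc J
        obtain ⟨h, hh⟩ := H379R3.exists_dim_eq (B := DQ (⊥ : Ideal R) J)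
        have hc0 : ph ⊥ J c ≠ 0 := by
          intro h0
          obtain ⟨s, hs, hsc⟩ := (ph_eq_zero ⊥ J c).1 h0
          obtain ⟨Q, hQ, hQJ⟩ := Ideal.exists_minimalPrimes_le (I := ⊥) (J := J) bot_le
          have hQp : Q.IsPrime := hQ.1.1
          have h1 : s * c ∈ Q := by
            rw [Ideal.mem_bot.1 hsc]; exact Q.zero_mem
          rcases hQp.mem_or_mem h1 with h2 | h2
          · exact hs (hQJ h2)
          · exact hc Q hQ h2
        obtain ⟨f, hf, N₁, hN₁⟩ := bound p J h ⊥ bot_le g hg H1 hreg hh c hc0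
        -- the complement
        obtain ⟨N₂, hN₂⟩ := ih (J ⊔ Ideal.span {f}) (by
          refine lt_of_le_of_ne le_sup_left ?_
          intro heq
          apply hf
          rw [heq]
          exact Ideal.mem_sup_right (Ideal.mem_span_singleton_self f))
        refine ⟨max N₁ N₂, fun e he q hqp hJq hmem => ?_⟩
        by_cases hfq : f ∈ q
        · exact hN₂ e (le_trans (le_max_right _ _) he) q
            (sup_le hJq (by rw [Ideal.span_singleton_le_iff_mem]; exact hfq)) hmem
        · have := hloc q
          apply hN₁ e (le_trans (le_max_left _ _) he) q hJq hfq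
          rw [ph_mem_fpow]
          exact Ideal.mem_sup_right hmem
      · by_cases hJt : J = ⊤
        · subst hJt
          exact ⟨0, fun e _ q hqp hq => absurd (top_le_iff.1 hq) hqp.ne_top⟩
        · rw [Ideal.isPrime_iff] at hJp
          push Not at hJp
          obtain ⟨a, b, hab, ha, hb⟩ := hJp hJt
          have h1 : ∀ y ∉ J, J < J ⊔ Ideal.span {y} := by
            intro y hy
            refine lt_of_le_of_ne le_sup_left ?_
            intro heq
            apply hy
            rw [heq]
            exact Ideal.mem_sup_right (Ideal.mem_span_singleton_self y)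
          obtain ⟨N₁, hN₁⟩ := ih _ (h1 a ha)
          obtain ⟨N₂, hN₂⟩ := ih _ (h1 b hb)
          refine ⟨max N₁ N₂, fun e he q hqp hJq => ?_⟩
          rcases hqp.mem_or_mem (hJq hab) with h2 | h2
          · exact hN₁ e (le_trans (le_max_left _ _) he) q
              (sup_le hJq (by rw [Ideal.span_singleton_le_iff_mem]; exact h2))
          · exact hN₂ e (le_trans (le_max_right _ _) he) q
              (sup_le hJq (by rw [Ideal.span_singleton_le_iff_mem]; exact h2))
  obtain ⟨N, hN⟩ := key ⊥
  exact ⟨N, fun e he q _ => hN e he q bot_le⟩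

end Pool.Agent.T9h72.FP
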