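import Mathlib

/-! Excellent rings. -/

set_option autoImplicit false

namespace Pool.Agent.T9h72.FP

open TensorProduct IsLocalRing

universe u

/-- A ring is catenary if any two saturated chains of primes with the same ends have the same
length (for a Noetherian ring all chains between two given primes are finite). -/
def IsCatenary (A : Type u) [CommRing A] : Prop :=
  ∀ l₁ l₂ : List (PrimeSpectrum A), l₁.IsChain (· ⋖ ·) → l₂.IsChain (· ⋖ ·) →
    l₁.head? = l₂.head? → l₁.getLast? = l₂.getLast? → l₁.length = l₂.length

/-- `R` is universally catenary: every `R`-algebra of finite type is catenary. -/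
def IsUniversallyCatenary (R : Type u) [CommRing R] : Prop :=
  ∀ (A : Type u) [CommRing A] [Algebra R A] [Algebra.FiniteType R A], IsCatenary A

/-- `R` is J-2: the regular locus of every `R`-algebra of finite type is open. -/
def IsJ2 (R : Type u) [CommRing R] : Prop :=
  ∀ (A : Type u) [CommRing A] [Algebra R A] [Algebra.FiniteType R A],
    IsOpen {Q : PrimeSpectrum A | IsRegularLocalRing (Localization.AtPrime Q.asIdeal)}

/-- `R` is a G-ring: for every prime `P` the formal fibres of `R_P` are geometrically regular, that
is, for every field `L` essentially of finite type over `R_P` (a finitely generated extension of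
the residue field of some prime of `R_P`) the base change to `L` of the completion of `R_P` is a
regular ring. -/
def IsGRing (R : Type u) [CommRing R] : Prop :=
  ∀ (P : Ideal R) [P.IsPrime] (L : Type u) [Field L] [Algebra (Localization.AtPrime P) L],
    Algebra.EssFiniteType (Localization.AtPrime P) L →
      IsRegularRing (L ⊗[Localization.AtPrime P]
        AdicCompletion (maximalIdeal (Localization.AtPrime P)) (Localization.AtPrime P))

/-- Excellent rings (Grothendieck): Noetherian, universally catenary, J-2 and G-ring. -/
structure IsExcellent (R : Type u) [CommRing R] : Prop where
  noetherian : IsNoetherianRing R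
  catenary : IsUniversallyCatenary R
  j2 : IsJ2 R
  gRing : IsGRing R

end Pool.Agent.T9h72.FP
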