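import Mathlib
import Pool.Agent.T9h72.FP.Bound
import Pool.Agent.T9h72.FP.Exc

/-! Excellent regular rings are `F`-pure regular. -/

set_option autoImplicit false

namespace Pool.Agent.T9h72.FP

open IsLocalRing

universe u

/-- `(R ⧸ P)` localized at `q / P` is `R_q / P R_q`. -/
theorem quot_loc {R : Type u} [CommRing R] (P q : Ideal R) [P.IsPrime] [q.IsPrime] (hPq : P ≤ q)
    (Q : Ideal (R ⧸ P)) [Q.IsPrime] (hQ : Q = q.map (Ideal.Quotient.mk P)) :
    Nonempty (Localization.AtPrime Q ≃+* DQ P q) := by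
  have h1 : Algebra.algebraMapSubmonoid (R ⧸ P) q.primeCompl = Q.primeCompl := by
    ext y
    constructor
    · rintro ⟨s, hs, rfl⟩
      show Ideal.Quotient.mk P s ∉ Q
      rw [hQ, Ideal.mem_quotient_iff_mem_sup, sup_eq_left.2 hPq]
      exact hs
    · intro hy
      obtain ⟨s, rfl⟩ := Ideal.Quotient.mk_surjective y
      refine ⟨s, ?_, rfl⟩
      intro hs
      apply hy
      rw [hQ]
      exact Ideal.mem_map_of_mem _ hs
  have h2 : IsLocalization (Algebra.algebraMapSubmonoid (R ⧸ P) q.primeCompl) (DQ P q) :=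
    inferInstance
  rw [h1] at h2
  exact ⟨(IsLocalization.algEquiv Q.primeCompl (Localization.AtPrime Q) (DQ P q)).toRingEquiv⟩

/-- the hypothesis on regular loci in terms of `R_q / P R_q` -/
theorem loci {R : Type u} [CommRing R]
    (hJ : ∀ (P : Ideal R) [P.IsPrime], ∃ U : Set (PrimeSpectrum (R ⧸ P)), IsOpen U ∧ U.Nonempty ∧
      ∀ Q ∈ U, IsRegularLocalRing (Localization.AtPrime Q.asIdeal)) (P : Ideal R) [P.IsPrime] :
    ∃ g ∉ P, ∀ (q : Ideal R) [q.IsPrime], P ≤ q → g ∉ q → IsRegularLocalRing (DQ P q) := by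
  obtain ⟨U, hU, ⟨x, hx⟩, hreg⟩ := hJ P
  obtain ⟨_, ⟨g, rfl⟩, hxg, hgU⟩ :=
    (PrimeSpectrum.isTopologicalBasis_basic_opens).exists_subset_of_mem_open hx hU
  obtain ⟨g, rfl⟩ := Ideal.Quotient.mk_surjective g
  refine ⟨g, ?_, ?_⟩
  · intro hg
    rw [Ideal.Quotient.eq_zero_iff_mem.2 hg] at hxg
    exact hxg x.asIdeal.zero_mem
  · intro q _ hPq hgq
    have hQp : (q.map (Ideal.Quotient.mk P)).IsPrime :=
      Ideal.map_isPrime_of_surjective Ideal.Quotient.mk_surjective (by rwa [Ideal.mk_ker])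
    have h1 : (⟨q.map (Ideal.Quotient.mk P), hQp⟩ : PrimeSpectrum (R ⧸ P)) ∈ U := by
      apply hgU
      show Ideal.Quotient.mk P g ∉ q.map (Ideal.Quotient.mk P)
      rw [Ideal.mem_quotient_iff_mem_sup, sup_eq_left.2 hPq]
      exact hgq
    have h2 : IsRegularLocalRing (Localization.AtPrime (q.map (Ideal.Quotient.mk P))) := hreg _ h1
    obtain ⟨e⟩ := quot_loc P q hPq (q.map (Ideal.Quotient.mk P)) rfl
    exact IsRegularLocalRing.of_ringEquiv e

theorem main_j0 (p : ℕ) [Fact p.Prime] (R : Type u) [CommRing R] [CharP R p] [IsRegularRing R]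
    (hJ : ∀ (P : Ideal R) [P.IsPrime], ∃ U : Set (PrimeSpectrum (R ⧸ P)), IsOpen U ∧ U.Nonempty ∧
      ∀ Q ∈ U, IsRegularLocalRing (Localization.AtPrime Q.asIdeal)) (c : R)
    (hc : ∀ P ∈ minimalPrimes R, c ∉ P) : ∃ N : ℕ, ∀ e ≥ N, IsPure (lam p e c) := by
  obtain ⟨N, hN⟩ := uniform p (fun P _ => loci hJ P) c hc
  exact ⟨N, fun e he => isPure_lam c (fun q _ => inferInstance) (fun q _ => hN e he q)⟩

theorem j0_of_j2 {R : Type u} [CommRing R] (h : IsJ2 R) (P : Ideal R) [P.IsPrime] :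
    ∃ U : Set (PrimeSpectrum (R ⧸ P)), IsOpen U ∧ U.Nonempty ∧
      ∀ Q ∈ U, IsRegularLocalRing (Localization.AtPrime Q.asIdeal) := by
  refine ⟨_, h (R ⧸ P), ⟨⟨⊥, Ideal.isPrime_bot⟩, ?_⟩, fun Q hQ => hQ⟩
  show IsRegularLocalRing (Localization.AtPrime (⊥ : Ideal (R ⧸ P)))
  let _ : Field (Localization.AtPrime (⊥ : Ideal (R ⧸ P))) := IsField.toField <| by
    simp [isField_iff_maximalIdeal_eq, ← Localization.AtPrime.map_eq_maximalIdeal]
  infer_instance

theorem main (p : ℕ) [Fact p.Prime] (R : Type u) [CommRing R] [CharP R p] [IsRegularRing R]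
    (h : IsExcellent R) : FPureRegular p R := by
  intro c hc
  obtain ⟨N, hN⟩ := main_j0 p R (fun P _ => j0_of_j2 h.j2 P) c hc
  exact ⟨max N 1, le_max_right _ _, hN _ (le_max_left _ _)⟩

end Pool.Agent.T9h72.FP
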